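import Pool.Agent.H563.T4.Choice

set_option autoImplicit false

/-!
# Thin sets containing all four coordinates of many quadruples
-/

namespace Pool.Agent.H563.T4

open Finset

/-- one element in each of the blocks `[t L, (t+1) L)`, `t < k` -/
def blk (k L : ℕ) (r : ℕ → ℕ) : Finset ℕ := (range k).image (fun t => t * L + r t)

lemma blk_inj (L : ℕ) (r : ℕ → ℕ) (hr : ∀ t, r t < L) : Function.Injective (fun t => t * L + r t) := by
  have h0 : 0 < L := lt_of_le_of_lt (Nat.zero_le _) (hr 0)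
  intro s t h
  simp only at h
  have h1 : (s * L + r s) / L = s := by
    rw [Nat.mul_comm, Nat.mul_add_div h0, Nat.div_eq_of_lt (hr s), Nat.add_zero]
  have h2 : (t * L + r t) / L = t := by
    rw [Nat.mul_comm, Nat.mul_add_div h0, Nat.div_eq_of_lt (hr t), Nat.add_zero]
  rw [← h1, ← h2, h]

lemma card_blk (k L : ℕ) (r : ℕ → ℕ) : (blk k L r).card ≤ k := by
  unfold blk
  calc _ ≤ (range k).card := card_image_le
    _ = k := card_range k

variable {Q : Type*}

lemma fib_blk [DecidableEq Q] (T : Finset Q) (π : Q → ℕ) (k L : ℕ) (r : ℕ → ℕ) (hr : ∀ t, r t < L) :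
    ∑ t ∈ range k, ((T.filter (fun q => π q = t * L + r t)).card : ℝ) =
      ((T.filter (fun q => π q ∈ blk k L r)).card : ℝ) := by
  have h1 : (T.filter (fun q => π q ∈ blk k L r)).card =
      ∑ a ∈ blk k L r, ((T.filter (fun q => π q ∈ blk k L r)).filter (fun q => π q = a)).card :=
    card_eq_sum_card_fiberwise (fun q hq => (mem_filter.1 hq).2)
  have h2 : ∀ a ∈ blk k L r, ((T.filter (fun q => π q ∈ blk k L r)).filter (fun q => π q = a)).card =
      (T.filter (fun q => π q = a)).card := by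
    intro a ha
    congr 1
    rw [filter_filter]
    apply filter_congr
    intro q _
    constructor
    · exact fun h => h.2
    · intro h
      exact ⟨by rw [h]; exact ha, h⟩
  rw [h1, sum_congr rfl h2]
  unfold blk
  rw [sum_image (fun s _ t _ h => blk_inj L r hr h)]
  push_cast
  rfl

lemma fib_all [DecidableEq Q] (T : Finset Q) (π : Q → ℕ) (M : ℕ) (h : ∀ q ∈ T, π q < M) :
    ∑ v ∈ range M, ((T.filter (fun q => π q = v)).card : ℝ) = (T.card : ℝ) := by
  have h1 : T.card = ∑ a ∈ range M, (T.filter (fun q => π q = a)).card :=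
    card_eq_sum_card_fiberwise (fun q hq => mem_coe.2 (mem_range.2 (h q hq)))
  rw [h1]
  push_cast
  rfl

lemma fib_le [DecidableEq Q] (T : Finset Q) (p : Q → Prop) [DecidablePred p] (π : Q → ℕ) (A : Finset ℕ)
    (D : ℝ) (hA : ∀ q ∈ T, p q → π q ∈ A)
    (hD : ∀ a ∈ A, ((T.filter (fun q => p q ∧ π q = a)).card : ℝ) ≤ D) :
    ((T.filter p).card : ℝ) ≤ A.card * D := by
  have h1 : (T.filter p).card = ∑ a ∈ A, ((T.filter p).filter (fun q => π q = a)).card :=
    card_eq_sum_card_fiberwise (fun q hq => by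
      rw [mem_coe, mem_filter] at hq
      exact mem_coe.2 (hA q hq.1 hq.2))
  rw [h1]
  push_cast
  rw [← nsmul_eq_mul]
  apply sum_le_card_nsmul
  intro a ha
  rw [filter_filter]
  exact hD a ha

lemma sub_le (T : Finset Q) (p p' : Q → Prop) [DecidablePred p] [DecidablePred p'] (D : ℝ)
    (h : ∀ q ∈ T, p q → p' q) (hD : ((T.filter p').card : ℝ) ≤ D) : ((T.filter p).card : ℝ) ≤ D := by
  refine le_trans ?_ hD
  have h1 : T.filter p ⊆ T.filter p' := by
    intro q hq
    rw [mem_filter] at hq ⊢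
    exact ⟨hq.1, h q hq.1 hq.2⟩
  exact_mod_cast card_le_card h1

/-- at most `D` quadruples with two given coordinates -/
structure Codeg (T : Finset (ℕ × ℕ × ℕ × ℕ)) (D : ℝ) : Prop where
  h12 : ∀ a b, ((T.filter (fun q => q.1 = a ∧ q.2.1 = b)).card : ℝ) ≤ D
  h13 : ∀ a b, ((T.filter (fun q => q.1 = a ∧ q.2.2.1 = b)).card : ℝ) ≤ D
  h14 : ∀ a b, ((T.filter (fun q => q.1 = a ∧ q.2.2.2 = b)).card : ℝ) ≤ D
  h23 : ∀ a b, ((T.filter (fun q => q.2.1 = a ∧ q.2.2.1 = b)).card : ℝ) ≤ D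
  h24 : ∀ a b, ((T.filter (fun q => q.2.1 = a ∧ q.2.2.2 = b)).card : ℝ) ≤ D
  h34 : ∀ a b, ((T.filter (fun q => q.2.2.1 = a ∧ q.2.2.2 = b)).card : ℝ) ≤ D

/-- the third or the fourth coordinate -/
def cd (b : Bool) (q : ℕ × ℕ × ℕ × ℕ) : ℕ := if b then q.2.2.1 else q.2.2.2

theorem four (N : Finset ℕ) (G : ℕ → Finset (ℕ × ℕ × ℕ × ℕ)) (k L : ℕ) (hL : 0 < L) (hk : 0 < k)
    (D : ℝ) (hD : 1 ≤ D) (hdeg : ∀ n ∈ N, Codeg (G n) D)
    (hlt : ∀ n ∈ N, ∀ q ∈ G n, q.1 < k * L ∧ q.2.1 < k * L ∧ q.2.2.1 < k * L ∧ q.2.2.2 < k * L)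
    (Γ : ℝ) (hΓ : ∀ n ∈ N, Γ ≤ ((G n).card : ℝ)) (lam R : ℝ) (hlam : 0 < lam) (hR : 0 < R)
    (N1 : (N.card : ℝ) * Real.exp (-(Γ / (8 * L * (k * L * D)))) < 1)
    (N2 : (N.card : ℝ) * Real.exp (-(Γ / (2 * L) / (8 * L * (k * D)))) +
      (2 * (N.card * (k * L : ℝ))) * Real.exp ((Real.exp 1 - 1) * (k / L) - 1 * (4 * (k / L))) < 1)
    (N3 : (N.card : ℝ) * Real.exp (-(Γ / (2 * L) / (2 * L) / (8 * L * (4 * (k / L) * D)))) +
      (N.card * (k * L : ℝ)) * Real.exp ((Real.exp lam - 1) * (4 * (k / L) / L) - lam * R) < 1)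
    (N4 : (N.card : ℝ) * Real.exp (-(Γ / (2 * L) / (2 * L) / (2 * L) / (8 * L * (R * D)))) < 1) :
    ∃ r1 r2 r3 r4 : ℕ → ℕ, (∀ t, r1 t < L) ∧ (∀ t, r2 t < L) ∧ (∀ t, r3 t < L) ∧ (∀ t, r4 t < L) ∧
      ∀ n ∈ N, Γ / (2 * L) / (2 * L) / (2 * L) / (2 * L) ≤
        (((G n).filter (fun q => (q.1 ∈ blk k L r1 ∧ q.2.1 ∈ blk k L r2 ∧ q.2.2.1 ∈ blk k L r3) ∧
          q.2.2.2 ∈ blk k L r4)).card : ℝ) := by
  classical
  have hLr : (0 : ℝ) < L := by exact_mod_cast hL
  have hkr : (0 : ℝ) < k := by exact_mod_cast hk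
  have hD0 : 0 < D := by linarith
  -- step 1
  obtain ⟨r1, hr1, h1, -⟩ := step N (∅ : Finset Unit) k L hL
    (fun n v => (((G n).filter (fun q => q.1 = v)).card : ℝ)) (k * L * D) (by positivity)
    (by
      intro n hn v
      refine ⟨by positivity, ?_⟩
      have := fib_le (G n) (fun q => q.1 = v) (fun q => q.2.1) (range (k * L)) D
        (fun q hq _ => mem_range.2 (hlt n hn q hq).2.1) (fun a _ => (hdeg n hn).h12 v a)
      rw [card_range] at this
      push_cast at this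
      exact this)
    Γ (by
      intro n hn
      rw [fib_all (G n) (fun q => q.1) (k * L) (fun q hq => (hlt n hn q hq).1)]
      exact hΓ n hn)
    (fun _ _ => 0) 1 one_pos (by simp) 0 0 0 le_rfl (by simp) (by simpa using N1)
  set A1 := blk k L r1 with hA1
  have hA1c : (A1.card : ℝ) ≤ k := by exact_mod_cast card_blk k L r1
  have g1 : ∀ n ∈ N, Γ / (2 * L) ≤ (((G n).filter (fun q => q.1 ∈ A1)).card : ℝ) := by
    intro n hn
    have := h1 n hn
    rw [fib_blk (G n) (fun q => q.1) k L r1 hr1] at this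
    exact this
  -- step 2
  obtain ⟨r2, hr2, h2, h2'⟩ := step N ((univ : Finset Bool) ×ˢ (N ×ˢ range (k * L))) k L hL
    (fun n v => (((G n).filter (fun q => q.1 ∈ A1 ∧ q.2.1 = v)).card : ℝ)) (k * D) (by positivity)
    (by
      intro n hn v
      refine ⟨by positivity, ?_⟩
      have := fib_le (G n) (fun q => q.1 ∈ A1 ∧ q.2.1 = v) (fun q => q.1) A1 D
        (fun q _ h => h.1) (fun a _ => sub_le _ _ _ D (fun q _ h => ⟨h.2, h.1.2⟩) ((hdeg n hn).h12 a v))
      calc _ ≤ A1.card * D := this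
        _ ≤ k * D := by gcongr)
    (Γ / (2 * L)) (by
      intro n hn
      have e1 := fib_all ((G n).filter (fun q => q.1 ∈ A1)) (fun q => q.2.1) (k * L)
        (fun q hq => (hlt n hn q (mem_filter.1 hq).1).2.1)
      simp only [filter_filter] at e1
      rw [e1]
      exact g1 n hn)
    (fun j v => (((G j.2.1).filter (fun q => q.1 ∈ A1 ∧ cd j.1 q = j.2.2 ∧ q.2.1 = v)).card : ℝ)) D hD0
    (by
      rintro ⟨b, n, c⟩ hj v
      rw [mem_product, mem_product] at hj
      simp only at hj ⊢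
      refine ⟨by positivity, ?_⟩
      have hn := hj.2.1
      cases b with
      | true => exact sub_le _ _ _ D (fun q _ h => ⟨h.2.2, h.2.1⟩) ((hdeg n hn).h23 v c)
      | false => exact sub_le _ _ _ D (fun q _ h => ⟨h.2.2, h.2.1⟩) ((hdeg n hn).h24 v c))
    (k / L) 1 (4 * (k / L)) (by norm_num)
    (by
      rintro ⟨b, n, c⟩ hj
      rw [mem_product, mem_product] at hj
      simp only at hj ⊢
      have hn := hj.2.1
      have e1 := fib_all ((G n).filter (fun q => q.1 ∈ A1 ∧ cd b q = c)) (fun q => q.2.1) (k * L)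
        (fun q hq => (hlt n hn q (mem_filter.1 hq).1).2.1)
      simp only [filter_filter, and_assoc] at e1
      rw [e1]
      have h3 : (((G n).filter (fun q => q.1 ∈ A1 ∧ cd b q = c)).card : ℝ) ≤ A1.card * D := by
        apply fib_le (G n) (fun q => q.1 ∈ A1 ∧ cd b q = c) (fun q => q.1) A1 D (fun q _ h => h.1)
        intro a _
        cases b with
        | true => exact sub_le _ _ _ D (fun q _ h => ⟨h.2, h.1.2⟩) ((hdeg n hn).h13 a c)
        | false => exact sub_le _ _ _ D (fun q _ h => ⟨h.2, h.1.2⟩) ((hdeg n hn).h14 a c)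
      calc _ ≤ A1.card * D := h3
        _ ≤ k * D := by gcongr
        _ = k / L * L * D := by field_simp)
    (by
      rw [card_product, card_product, card_range, card_univ, Fintype.card_bool]
      push_cast
      exact N2)
  set A2 := blk k L r2 with hA2
  have g2 : ∀ n ∈ N, Γ / (2 * L) / (2 * L) ≤
      (((G n).filter (fun q => q.1 ∈ A1 ∧ q.2.1 ∈ A2)).card : ℝ) := by
    intro n hn
    have := h2 n hn
    have e1 := fib_blk ((G n).filter (fun q => q.1 ∈ A1)) (fun q => q.2.1) k L r2 hr2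
    simp only [filter_filter] at e1
    rw [e1] at this
    exact this
  have u2 : ∀ b : Bool, ∀ n ∈ N, ∀ c : ℕ,
      (((G n).filter (fun q => q.1 ∈ A1 ∧ cd b q = c ∧ q.2.1 ∈ A2)).card : ℝ) ≤ 4 * (k / L) * D := by
    intro b n hn c
    by_cases hc : c < k * L
    · have := h2' (b, n, c) (by
        rw [mem_product, mem_product]
        exact ⟨mem_univ _, hn, mem_range.2 hc⟩)
      have e1 := fib_blk ((G n).filter (fun q => q.1 ∈ A1 ∧ cd b q = c)) (fun q => q.2.1) k L r2 hr2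
      simp only [filter_filter, and_assoc] at e1
      simp only at this
      rw [e1, one_mul, one_mul] at this
      exact this
    · have e0 : (G n).filter (fun q => q.1 ∈ A1 ∧ cd b q = c ∧ q.2.1 ∈ A2) = ∅ := by
        rw [filter_eq_empty_iff]
        rintro q hq ⟨-, h, -⟩
        have := hlt n hn q hq
        cases b with
        | true => exact hc (by rw [← h]; exact this.2.2.1)
        | false => exact hc (by rw [← h]; exact this.2.2.2)
      rw [e0]
      simp only [card_empty, Nat.cast_zero]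
      positivity
  -- step 3
  obtain ⟨r3, hr3, h3, h3'⟩ := step N (N ×ˢ range (k * L)) k L hL
    (fun n v => (((G n).filter (fun q => (q.1 ∈ A1 ∧ q.2.1 ∈ A2) ∧ q.2.2.1 = v)).card : ℝ))
    (4 * (k / L) * D) (by positivity)
    (by
      intro n hn v
      refine ⟨by positivity, ?_⟩
      exact sub_le _ _ _ _ (fun q _ h => ⟨h.1.1, h.2, h.1.2⟩) (u2 true n hn v))
    (Γ / (2 * L) / (2 * L)) (by
      intro n hn
      have e1 := fib_all ((G n).filter (fun q => q.1 ∈ A1 ∧ q.2.1 ∈ A2)) (fun q => q.2.2.1) (k * L)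
        (fun q hq => (hlt n hn q (mem_filter.1 hq).1).2.2.1)
      simp only [filter_filter] at e1
      rw [e1]
      exact g2 n hn)
    (fun j v => (((G j.1).filter (fun q => (q.1 ∈ A1 ∧ q.2.1 ∈ A2 ∧ q.2.2.2 = j.2) ∧
      q.2.2.1 = v)).card : ℝ)) D hD0
    (by
      rintro ⟨n, c⟩ hj v
      rw [mem_product] at hj
      simp only at hj ⊢
      refine ⟨by positivity, ?_⟩
      exact sub_le _ _ _ D (fun q _ h => ⟨h.2, h.1.2.2⟩) ((hdeg n hj.1).h34 v c))
    (4 * (k / L) / L) lam R hlam.le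
    (by
      rintro ⟨n, c⟩ hj
      rw [mem_product] at hj
      simp only at hj ⊢
      have hn := hj.1
      have e1 := fib_all ((G n).filter (fun q => q.1 ∈ A1 ∧ q.2.1 ∈ A2 ∧ q.2.2.2 = c)) (fun q => q.2.2.1) (k * L)
        (fun q hq => (hlt n hn q (mem_filter.1 hq).1).2.2.1)
      simp only [filter_filter] at e1
      rw [e1]
      have h3 : (((G n).filter (fun q => q.1 ∈ A1 ∧ q.2.1 ∈ A2 ∧ q.2.2.2 = c)).card : ℝ) ≤
          4 * (k / L) * D :=
        sub_le _ _ _ _ (fun q _ h => ⟨h.1, h.2.2, h.2.1⟩) (u2 false n hn c)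
      calc _ ≤ 4 * (k / L) * D := h3
        _ = 4 * (k / L) / L * L * D := by field_simp)
    (by
      rw [card_product, card_range]
      push_cast
      exact N3)
  set A3 := blk k L r3 with hA3
  have g3 : ∀ n ∈ N, Γ / (2 * L) / (2 * L) / (2 * L) ≤
      (((G n).filter (fun q => q.1 ∈ A1 ∧ q.2.1 ∈ A2 ∧ q.2.2.1 ∈ A3)).card : ℝ) := by
    intro n hn
    have := h3 n hn
    have e1 := fib_blk ((G n).filter (fun q => q.1 ∈ A1 ∧ q.2.1 ∈ A2)) (fun q => q.2.2.1) k L r3 hr3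
    simp only [filter_filter] at e1
    rw [e1] at this
    simp only [and_assoc] at this
    exact this
  have u3 : ∀ n ∈ N, ∀ c : ℕ,
      (((G n).filter (fun q => (q.1 ∈ A1 ∧ q.2.1 ∈ A2 ∧ q.2.2.2 = c) ∧ q.2.2.1 ∈ A3)).card : ℝ) ≤
        R * D := by
    intro n hn c
    by_cases hc : c < k * L
    · have := h3' (n, c) (by
        rw [mem_product]
        exact ⟨hn, mem_range.2 hc⟩)
      have e1 := fib_blk ((G n).filter (fun q => q.1 ∈ A1 ∧ q.2.1 ∈ A2 ∧ q.2.2.2 = c))
        (fun q => q.2.2.1) k L r3 hr3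
      simp only [filter_filter] at e1
      simp only at this
      rw [e1] at this
      exact le_of_mul_le_mul_left this hlam
    · have e0 : (G n).filter (fun q => (q.1 ∈ A1 ∧ q.2.1 ∈ A2 ∧ q.2.2.2 = c) ∧ q.2.2.1 ∈ A3) = ∅ := by
        rw [filter_eq_empty_iff]
        rintro q hq ⟨⟨-, -, h⟩, -⟩
        have := hlt n hn q hq
        exact hc (by rw [← h]; exact this.2.2.2)
      rw [e0]
      simp only [card_empty, Nat.cast_zero]
      positivity
  -- step 4
  obtain ⟨r4, hr4, h4, -⟩ := step N (∅ : Finset Unit) k L hL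
    (fun n v => (((G n).filter (fun q => (q.1 ∈ A1 ∧ q.2.1 ∈ A2 ∧ q.2.2.1 ∈ A3) ∧ q.2.2.2 = v)).card : ℝ))
    (R * D) (by positivity)
    (by
      intro n hn v
      refine ⟨by positivity, ?_⟩
      exact sub_le _ _ _ _ (fun q _ h => ⟨⟨h.1.1, h.1.2.1, h.2⟩, h.1.2.2⟩) (u3 n hn v))
    (Γ / (2 * L) / (2 * L) / (2 * L)) (by
      intro n hn
      have e1 := fib_all ((G n).filter (fun q => q.1 ∈ A1 ∧ q.2.1 ∈ A2 ∧ q.2.2.1 ∈ A3))
        (fun q => q.2.2.2) (k * L) (fun q hq => (hlt n hn q (mem_filter.1 hq).1).2.2.2)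
      simp only [filter_filter] at e1
      rw [e1]
      exact g3 n hn)
    (fun _ _ => 0) 1 one_pos (by simp) 0 0 0 le_rfl (by simp) (by simpa using N4)
  refine ⟨r1, r2, r3, r4, hr1, hr2, hr3, hr4, ?_⟩
  intro n hn
  have := h4 n hn
  have e1 := fib_blk ((G n).filter (fun q => q.1 ∈ A1 ∧ q.2.1 ∈ A2 ∧ q.2.2.1 ∈ A3))
    (fun q => q.2.2.2) k L r4 hr4
  simp only [filter_filter] at e1
  rw [e1] at this
  exact this

end Pool.Agent.H563.T4
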