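import Mathlib

set_option autoImplicit false

/-!
# The choice of one element in each of `k` blocks of length `L`, with many conditions

The method of conditional expectations with exponential potentials.
-/

namespace Pool.Agent.H563.T4

open Finset

theorem choice {ι : Type*} (I : Finset ι) (L : ℕ) (hL : 0 < L) (s : ι → ℕ → ℝ) :
    ∀ (k : ℕ) (τ : ι → ℝ),
      ∑ i ∈ I, Real.exp (-τ i) *
        ∏ t ∈ range k, ((∑ u ∈ range L, Real.exp (s i (t * L + u))) / L) < 1 →
      ∃ r : ℕ → ℕ, (∀ t, r t < L) ∧ ∀ i ∈ I, ∑ t ∈ range k, s i (t * L + r t) < τ i := by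
  intro k
  induction k with
  | zero =>
    intro τ h
    refine ⟨fun _ => 0, fun _ => hL, ?_⟩
    intro i hi
    simp only [range_zero, prod_empty, mul_one, sum_empty] at h ⊢
    have h1 : Real.exp (-τ i) ≤ ∑ j ∈ I, Real.exp (-τ j) :=
      single_le_sum (f := fun j => Real.exp (-τ j)) (fun j _ => (Real.exp_pos _).le) hi
    have h2 : Real.exp (-τ i) < 1 := lt_of_le_of_lt h1 h
    rw [Real.exp_lt_one_iff] at h2
    linarith
  | succ k ih =>
    intro τ h
    have hLr : (0 : ℝ) < L := by exact_mod_cast hL
    set P : ι → ℝ := fun i => ∏ t ∈ range k, ((∑ u ∈ range L, Real.exp (s i (t * L + u))) / L) with hP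
    have h1 : ∑ u ∈ range L, (∑ i ∈ I, Real.exp (-(τ i - s i (k * L + u))) * P i) <
        ∑ u ∈ range L, (1 : ℝ) := by
      have e1 : ∑ u ∈ range L, (∑ i ∈ I, Real.exp (-(τ i - s i (k * L + u))) * P i) =
          L * ∑ i ∈ I, Real.exp (-τ i) *
            ∏ t ∈ range (k + 1), ((∑ u ∈ range L, Real.exp (s i (t * L + u))) / L) := by
        rw [sum_comm, mul_sum]
        apply sum_congr rfl
        intro i _
        rw [prod_range_succ]
        have e2 : ∀ u ∈ range L, Real.exp (-(τ i - s i (k * L + u))) * P i =
            Real.exp (-τ i) * P i * Real.exp (s i (k * L + u)) := by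
          intro u _
          rw [show -(τ i - s i (k * L + u)) = -τ i + s i (k * L + u) by ring, Real.exp_add]
          ring
        rw [sum_congr rfl e2, ← mul_sum, hP]
        field_simp
      rw [e1, sum_const, card_range, nsmul_eq_mul, mul_one]
      calc (L : ℝ) * _ < L * 1 := mul_lt_mul_of_pos_left h hLr
        _ = L := mul_one _
    obtain ⟨u, hu, hu2⟩ := exists_lt_of_sum_lt h1
    obtain ⟨r, hr1, hr2⟩ := ih (fun i => τ i - s i (k * L + u)) hu2
    refine ⟨fun t => if t = k then u else r t, ?_, ?_⟩
    · intro t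
      by_cases ht : t = k
      · simp only [ht, if_true]
        exact mem_range.1 hu
      · simp only [ht, if_false]
        exact hr1 t
    · intro i hi
      rw [sum_range_succ]
      have h3 := hr2 i hi
      have h4 : ∑ t ∈ range k, s i (t * L + (if t = k then u else r t)) =
          ∑ t ∈ range k, s i (t * L + r t) := by
        apply sum_congr rfl
        intro t ht
        rw [if_neg (by have := mem_range.1 ht; omega)]
      simp only at h3 ⊢
      rw [h4]
      simp only [if_true]
      linarith

/-- the sum over the blocks -/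
lemma sum_blocks (f : ℕ → ℝ) (L : ℕ) : ∀ k : ℕ, ∑ v ∈ range (k * L), f v =
    ∑ t ∈ range k, ∑ u ∈ range L, f (t * L + u) := by
  intro k
  induction k with
  | zero => simp
  | succ k ih => rw [Nat.succ_mul, sum_range_add, ih, sum_range_succ]

lemma exp_low (x : ℝ) (h0 : 0 ≤ x) (h1 : x ≤ 1) : Real.exp (-x) ≤ 1 - 5 / 8 * x := by
  have hc := convexOn_exp.2 (Set.mem_univ (0 : ℝ)) (Set.mem_univ (-1 : ℝ))
    (show (0 : ℝ) ≤ 1 - x by linarith) h0 (by ring)
  simp only [smul_eq_mul, mul_zero, zero_add, Real.exp_zero, mul_one] at hc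
  rw [show x * (-1 : ℝ) = -x by ring] at hc
  have he : Real.exp (-1) ≤ 3 / 8 := by
    rw [Real.exp_neg, inv_le_comm₀ (Real.exp_pos 1) (by norm_num)]
    have := Real.exp_one_gt_d9
    norm_num at this ⊢
    linarith
  nlinarith

lemma exp_up (a x : ℝ) (h0 : 0 ≤ x) (h1 : x ≤ 1) : Real.exp (a * x) ≤ 1 + (Real.exp a - 1) * x := by
  have hc := convexOn_exp.2 (Set.mem_univ (0 : ℝ)) (Set.mem_univ a)
    (show (0 : ℝ) ≤ 1 - x by linarith) h0 (by ring)
  simp only [smul_eq_mul, mul_zero, zero_add, Real.exp_zero, mul_one] at hc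
  rw [mul_comm x a] at hc
  linarith

/-- one step: lower bounds for the sums of the `f i`, upper bounds for the sums of the `g j` -/
theorem step {ι κ : Type*} (I : Finset ι) (J : Finset κ) (k L : ℕ) (hL : 0 < L)
    (f : ι → ℕ → ℝ) (F : ℝ) (hF : 0 < F) (hf : ∀ i ∈ I, ∀ v, 0 ≤ f i v ∧ f i v ≤ F)
    (S : ℝ) (hS : ∀ i ∈ I, S ≤ ∑ v ∈ range (k * L), f i v)
    (g : κ → ℕ → ℝ) (G : ℝ) (hG : 0 < G) (hg : ∀ j ∈ J, ∀ v, 0 ≤ g j v ∧ g j v ≤ G)
    (σ lam R : ℝ) (hlam : 0 ≤ lam) (hσ : ∀ j ∈ J, ∑ v ∈ range (k * L), g j v ≤ σ * L * G)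
    (hsum : (I.card : ℝ) * Real.exp (-(S / (8 * L * F))) +
      (J.card : ℝ) * Real.exp ((Real.exp lam - 1) * σ - lam * R) < 1) :
    ∃ r : ℕ → ℕ, (∀ t, r t < L) ∧ (∀ i ∈ I, S / (2 * L) ≤ ∑ t ∈ range k, f i (t * L + r t)) ∧
      ∀ j ∈ J, lam * ∑ t ∈ range k, g j (t * L + r t) ≤ lam * (R * G) := by
  classical
  have hLr : (0 : ℝ) < L := by exact_mod_cast hL
  obtain ⟨r, hr1, hr2⟩ := choice (I.disjSum J) L hL
    (Sum.elim (fun i v => -(f i v / F)) (fun j v => lam * (g j v / G))) k
    (Sum.elim (fun _ => -(S / (2 * L * F))) (fun _ => lam * R)) (by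
      refine lt_of_le_of_lt ?_ hsum
      rw [sum_disjSum]
      simp only [Sum.elim_inl, Sum.elim_inr]
      refine add_le_add ?_ ?_
      · rw [← nsmul_eq_mul]
        apply sum_le_card_nsmul
        intro i hi
        have h1 : ∏ t ∈ range k, ((∑ u ∈ range L, Real.exp (-(f i (t * L + u) / F))) / L) ≤
            ∏ t ∈ range k, Real.exp (-(5 / 8 * ((∑ u ∈ range L, f i (t * L + u)) / (L * F)))) := by
          apply prod_le_prod
          · intro t _
            positivity
          · intro t _
            have h2 : (∑ u ∈ range L, Real.exp (-(f i (t * L + u) / F))) ≤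
                ∑ u ∈ range L, (1 - 5 / 8 * (f i (t * L + u) / F)) := by
              apply sum_le_sum
              intro u _
              obtain ⟨h3, h4⟩ := hf i hi (t * L + u)
              exact exp_low _ (by positivity) (by rw [div_le_one hF]; exact h4)
            have h5 : (∑ u ∈ range L, (1 - 5 / 8 * (f i (t * L + u) / F))) / L =
                1 - 5 / 8 * ((∑ u ∈ range L, f i (t * L + u)) / (L * F)) := by
              rw [sum_sub_distrib, ← mul_sum, ← sum_div, sum_const, card_range, nsmul_eq_mul]
              field_simp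
            calc (∑ u ∈ range L, Real.exp (-(f i (t * L + u) / F))) / L ≤
                (∑ u ∈ range L, (1 - 5 / 8 * (f i (t * L + u) / F))) / L := by gcongr
              _ = 1 - 5 / 8 * ((∑ u ∈ range L, f i (t * L + u)) / (L * F)) := h5
              _ ≤ _ := Real.one_sub_le_exp_neg _
        rw [← Real.exp_sum] at h1
        have h6 : ∑ t ∈ range k, (-(5 / 8 * ((∑ u ∈ range L, f i (t * L + u)) / (L * F)))) =
            -(5 / 8 * ((∑ v ∈ range (k * L), f i v) / (L * F))) := by
          rw [sum_blocks, sum_neg_distrib, ← mul_sum, ← sum_div]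
        rw [h6] at h1
        calc Real.exp (-(-(S / (2 * L * F)))) *
              ∏ t ∈ range k, ((∑ u ∈ range L, Real.exp (-(f i (t * L + u) / F))) / L) ≤
              Real.exp (-(-(S / (2 * L * F)))) *
                Real.exp (-(5 / 8 * ((∑ v ∈ range (k * L), f i v) / (L * F)))) := by
              gcongr
          _ = Real.exp (-(-(S / (2 * L * F))) + -(5 / 8 * ((∑ v ∈ range (k * L), f i v) / (L * F)))) := by
              rw [Real.exp_add]
          _ ≤ Real.exp (-(S / (8 * L * F))) := by
              apply Real.exp_le_exp.2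
              have h7 : S / (L * F) ≤ (∑ v ∈ range (k * L), f i v) / (L * F) := by
                gcongr
                exact hS i hi
              have e1 : S / (2 * L * F) = 1 / 2 * (S / (L * F)) := by field_simp
              have e2 : S / (8 * L * F) = 1 / 8 * (S / (L * F)) := by field_simp
              rw [e1, e2]
              linarith
      · rw [← nsmul_eq_mul]
        apply sum_le_card_nsmul
        intro j hj
        have h1 : ∏ t ∈ range k, ((∑ u ∈ range L, Real.exp (lam * (g j (t * L + u) / G))) / L) ≤
            ∏ t ∈ range k, Real.exp ((Real.exp lam - 1) * ((∑ u ∈ range L, g j (t * L + u)) / (L * G))) := by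
          apply prod_le_prod
          · intro t _
            positivity
          · intro t _
            have h2 : (∑ u ∈ range L, Real.exp (lam * (g j (t * L + u) / G))) ≤
                ∑ u ∈ range L, (1 + (Real.exp lam - 1) * (g j (t * L + u) / G)) := by
              apply sum_le_sum
              intro u _
              obtain ⟨h3, h4⟩ := hg j hj (t * L + u)
              exact exp_up _ _ (by positivity) (by rw [div_le_one hG]; exact h4)
            have h5 : (∑ u ∈ range L, (1 + (Real.exp lam - 1) * (g j (t * L + u) / G))) / L =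
                (Real.exp lam - 1) * ((∑ u ∈ range L, g j (t * L + u)) / (L * G)) + 1 := by
              rw [sum_add_distrib, ← mul_sum, ← sum_div, sum_const, card_range, nsmul_eq_mul]
              field_simp
              ring
            calc (∑ u ∈ range L, Real.exp (lam * (g j (t * L + u) / G))) / L ≤
                (∑ u ∈ range L, (1 + (Real.exp lam - 1) * (g j (t * L + u) / G))) / L := by gcongr
              _ = (Real.exp lam - 1) * ((∑ u ∈ range L, g j (t * L + u)) / (L * G)) + 1 := h5
              _ ≤ _ := Real.add_one_le_exp _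
        rw [← Real.exp_sum] at h1
        have h6 : ∑ t ∈ range k, ((Real.exp lam - 1) * ((∑ u ∈ range L, g j (t * L + u)) / (L * G))) =
            (Real.exp lam - 1) * ((∑ v ∈ range (k * L), g j v) / (L * G)) := by
          rw [sum_blocks, ← mul_sum, ← sum_div]
        rw [h6] at h1
        have hel : 0 ≤ Real.exp lam - 1 := by
          have := Real.one_le_exp hlam
          linarith
        calc Real.exp (-(lam * R)) *
              ∏ t ∈ range k, ((∑ u ∈ range L, Real.exp (lam * (g j (t * L + u) / G))) / L) ≤
              Real.exp (-(lam * R)) *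
                Real.exp ((Real.exp lam - 1) * ((∑ v ∈ range (k * L), g j v) / (L * G))) := by
              gcongr
          _ = Real.exp (-(lam * R) + (Real.exp lam - 1) * ((∑ v ∈ range (k * L), g j v) / (L * G))) := by
              rw [Real.exp_add]
          _ ≤ Real.exp ((Real.exp lam - 1) * σ - lam * R) := by
              apply Real.exp_le_exp.2
              have h7 : (∑ v ∈ range (k * L), g j v) / (L * G) ≤ σ := by
                rw [div_le_iff₀ (by positivity)]
                have := hσ j hj
                linarith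
              have := mul_le_mul_of_nonneg_left h7 hel
              linarith)
  refine ⟨r, hr1, ?_, ?_⟩
  · intro i hi
    have h := hr2 (Sum.inl i) (by rw [inl_mem_disjSum]; exact hi)
    simp only [Sum.elim_inl] at h
    rw [sum_neg_distrib, ← sum_div] at h
    have h1 : S / (2 * L * F) < (∑ t ∈ range k, f i (t * L + r t)) / F := by linarith
    rw [lt_div_iff₀ hF] at h1
    have e1 : S / (2 * L * F) * F = S / (2 * L) := by field_simp
    rw [e1] at h1
    exact h1.le
  · intro j hj
    have h := hr2 (Sum.inr j) (by rw [inr_mem_disjSum]; exact hj)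
    simp only [Sum.elim_inr] at h
    rw [← mul_sum, ← sum_div] at h
    have h1 : lam * ((∑ t ∈ range k, g j (t * L + r t)) / G) * G ≤ lam * R * G := by
      gcongr
    have e1 : lam * ((∑ t ∈ range k, g j (t * L + r t)) / G) * G =
        lam * ∑ t ∈ range k, g j (t * L + r t) := by field_simp
    rw [e1] at h1
    linarith

end Pool.Agent.H563.T4
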