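import Pool.Agent.H563.T4.Scale

set_option autoImplicit false

/-!
# One thin set containing all four coordinates of many quadruples, for all scales
-/

namespace Pool.Agent.H563.T4

open Finset Filter Topology

lemma blk_count (ε : ℝ) (hε : 0 < ε) (hε2 : ε ≤ 1 / 12) (m : ℕ) (r : ℕ → ℕ) (t : ℕ) (ht : 1 ≤ t)
    (hL : LL ε m ≤ t) :
    (((blk (kk ε m) (LL ε m) r).filter (fun v => v ≤ t)).card : ℝ) ≤ 4 * (t : ℝ) ^ (1 / 2 + ε) := by
  classical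
  set L := LL ε m with hLd
  set k := kk ε m with hkd
  have hL0 : 0 < L := LL_pos ε m
  have hkL : k * L = 2 ^ m := kk_mul ε hε hε2 m
  have hLr : (0 : ℝ) < L := by exact_mod_cast hL0
  set q : ℝ := (2 : ℝ) ^ m with hq
  have hqp : 0 < q := by positivity
  have hkLr : (k : ℝ) * L = q := by
    have : ((k * L : ℕ) : ℝ) = ((2 ^ m : ℕ) : ℝ) := by rw [hkL]
    push_cast at this
    exact this
  have hLl : q ^ (1 / 2 - ε) ≤ 2 * (L : ℝ) := L_low ε m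
  have htr : (1 : ℝ) ≤ t := by exact_mod_cast ht
  have ht0 : (0 : ℝ) < t := by linarith
  by_cases hqt : q ≤ t
  · have h1 : ((blk k L r).filter (fun v => v ≤ t)).card ≤ k :=
      (card_le_card (filter_subset _ _)).trans (card_blk k L r)
    have h2 : (k : ℝ) ≤ 2 * q ^ (1 / 2 + ε) := by
      have h3 : (k : ℝ) * L ≤ 2 * q ^ (1 / 2 + ε) * L := by
        rw [hkLr]
        have h4 : q = q ^ (1 / 2 - ε) * q ^ (1 / 2 + ε) := by
          rw [← Real.rpow_add hqp]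
          norm_num
        have h5 : 0 < q ^ (1 / 2 + ε) := by positivity
        nlinarith
      exact le_of_mul_le_mul_right h3 hLr
    have h6 : q ^ (1 / 2 + ε) ≤ (t : ℝ) ^ (1 / 2 + ε) :=
      Real.rpow_le_rpow hqp.le hqt (by positivity)
    have h7 : (((blk k L r).filter (fun v => v ≤ t)).card : ℝ) ≤ k := by exact_mod_cast h1
    have h8 : 0 < (t : ℝ) ^ (1 / 2 + ε) := by positivity
    linarith
  · have hqt' : (t : ℝ) ≤ q := (not_le.1 hqt).le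
    have h1 : (blk k L r).filter (fun v => v ≤ t) ⊆ (range (t / L + 1)).image (fun s => s * L + r s) := by
      intro v hv
      rw [mem_filter] at hv
      obtain ⟨hv1, hv2⟩ := hv
      unfold blk at hv1
      rw [mem_image] at hv1 ⊢
      obtain ⟨s, -, hs⟩ := hv1
      refine ⟨s, ?_, hs⟩
      rw [mem_range, Nat.lt_succ_iff, Nat.le_div_iff_mul_le hL0]
      omega
    have h2 : ((blk k L r).filter (fun v => v ≤ t)).card ≤ t / L + 1 := by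
      calc _ ≤ ((range (t / L + 1)).image (fun s => s * L + r s)).card := card_le_card h1
        _ ≤ (range (t / L + 1)).card := card_image_le
        _ = t / L + 1 := card_range _
    have h3 : (((blk k L r).filter (fun v => v ≤ t)).card : ℝ) ≤ ((t / L : ℕ) : ℝ) + 1 := by
      exact_mod_cast h2
    have h4 : ((t / L : ℕ) : ℝ) ≤ (t : ℝ) / L := Nat.cast_div_le
    have h5 : (1 : ℝ) ≤ (t : ℝ) / L := by
      rw [le_div_iff₀ hLr, one_mul]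
      exact_mod_cast hL
    have h6 : (t : ℝ) / L ≤ 2 * (t : ℝ) ^ (1 / 2 + ε) := by
      rw [div_le_iff₀ hLr]
      have h7 : (t : ℝ) ^ (1 / 2 - ε) ≤ q ^ (1 / 2 - ε) :=
        Real.rpow_le_rpow ht0.le hqt' (by linarith)
      have h8 : (t : ℝ) = (t : ℝ) ^ (1 / 2 - ε) * (t : ℝ) ^ (1 / 2 + ε) := by
        rw [← Real.rpow_add ht0]
        norm_num
      have h9 : 0 < (t : ℝ) ^ (1 / 2 + ε) := by positivity
      calc (t : ℝ) = (t : ℝ) ^ (1 / 2 - ε) * (t : ℝ) ^ (1 / 2 + ε) := h8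
        _ ≤ (2 * (L : ℝ)) * (t : ℝ) ^ (1 / 2 + ε) := by gcongr; linarith
        _ = 2 * (t : ℝ) ^ (1 / 2 + ε) * L := by ring
    linarith

lemma m_le (ε : ℝ) (hε2 : ε ≤ 1 / 12) (m t : ℕ) (hL : LL ε m ≤ t) :
    m < 4 * (Nat.log 2 t + 1) := by
  unfold LL at hL
  have h1 : ll ε m ≤ Nat.log 2 t := Nat.le_log_of_pow_le (by norm_num) hL
  have h2 : (1 / 2 - ε) * m < (ll ε m : ℝ) + 1 := by
    unfold ll
    exact Nat.lt_floor_add_one _
  have h3 : (m : ℝ) < 4 * ((ll ε m : ℝ) + 1) := by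
    have : (0 : ℝ) ≤ m := by positivity
    nlinarith
  have h4 : m < 4 * (ll ε m + 1) := by exact_mod_cast h3
  omega

theorem thin (κ : ℕ) (hκ : 1 ≤ κ) (P : ℕ → ℕ × ℕ × ℕ × ℕ → Prop) (T : ℕ → Prop)
    (ε : ℝ) (hε : 0 < ε) (hε2 : ε ≤ 1 / 12) (n0 : ℕ)
    (hyp : ∀ n, n0 ≤ n → T n → ∃ S : Finset (ℕ × ℕ × ℕ × ℕ), (n : ℝ) ^ (1 - ε / 8) ≤ (S.card : ℝ) ∧
      ∀ q ∈ S, n = q.1 ^ 2 + q.2.1 ^ 2 + q.2.2.1 ^ 2 + (κ * q.2.2.2) ^ 2 ∧ P n q) :
    ∃ X : Set ℕ, (∃ C : ℝ, 0 < C ∧ ∀ t : ℕ, 1 ≤ t →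
        ((X ∩ Set.Icc 1 t).ncard : ℝ) ≤ C * (t : ℝ) ^ (1 / 2 + 2 * ε)) ∧
      ∃ n1 : ℕ, ∀ n, n1 ≤ n → T n → ∃ S : Finset (ℕ × ℕ × ℕ × ℕ), (n : ℝ) ^ ε ≤ (S.card : ℝ) ∧
        ∀ q ∈ S, (q.1 ∈ X ∧ q.2.1 ∈ X ∧ q.2.2.1 ∈ X ∧ q.2.2.2 ∈ X) ∧
          n = q.1 ^ 2 + q.2.1 ^ 2 + q.2.2.1 ^ 2 + (κ * q.2.2.2) ^ 2 ∧ P n q := by
  classical
  obtain ⟨m0, hm0, hscale⟩ := scale κ hκ ε hε hε2
  have hyp' : ∀ n, ∃ S : Finset (ℕ × ℕ × ℕ × ℕ), n0 ≤ n → T n → (n : ℝ) ^ (1 - ε / 8) ≤ (S.card : ℝ) ∧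
      ∀ q ∈ S, n = q.1 ^ 2 + q.2.1 ^ 2 + q.2.2.1 ^ 2 + (κ * q.2.2.2) ^ 2 ∧ P n q := by
    intro n
    by_cases h : n0 ≤ n ∧ T n
    · obtain ⟨S, hS⟩ := hyp n h.1 h.2
      exact ⟨S, fun _ _ => hS⟩
    · exact ⟨∅, fun h1 h2 => absurd ⟨h1, h2⟩ h⟩
  choose S hS using hyp'
  set N : ℕ → Finset ℕ := fun m => (range (4 ^ m)).filter (fun n => 4 ^ (m - 1) ≤ n ∧ n0 ≤ n ∧ T n) with hN
  have hmem : ∀ m n, n ∈ N m → (4 ^ (m - 1) ≤ n ∧ n < 4 ^ m) ∧ n0 ≤ n ∧ T n := by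
    intro m n hn
    rw [hN] at hn
    simp only [mem_filter, mem_range] at hn
    exact ⟨⟨hn.2.1, hn.1⟩, hn.2.2.1, hn.2.2.2⟩
  have hex := fun m (hm : m0 ≤ m) => hscale m hm (N m) S (fun n hn => (hmem m n hn).1)
    (fun n hn q hq => ((hS n (hmem m n hn).2.1 (hmem m n hn).2.2).2 q hq).1)
    (fun n hn => (hS n (hmem m n hn).2.1 (hmem m n hn).2.2).1)
  choose! r1 r2 r3 r4 hr using hex
  set Y : ℕ → Finset ℕ := fun m => (blk (kk ε m) (LL ε m) (r1 m) ∪ blk (kk ε m) (LL ε m) (r2 m)) ∪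
    (blk (kk ε m) (LL ε m) (r3 m) ∪ blk (kk ε m) (LL ε m) (r4 m)) with hY
  refine ⟨{v | ∃ m, m0 ≤ m ∧ LL ε m ≤ v ∧ v ∈ Y m}, ⟨16 * (8 / ε + 5), by positivity, ?_⟩,
    max n0 (4 ^ m0), ?_⟩
  · intro t ht
    have htr : (1 : ℝ) ≤ t := by exact_mod_cast ht
    have ht0 : (0 : ℝ) < t := by linarith
    set M := 4 * (Nat.log 2 t + 1) with hM
    set W : Finset ℕ := (range M).biUnion (fun m => (Y m).filter (fun v => LL ε m ≤ v ∧ v ≤ t)) with hW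
    have hsub : ({v | ∃ m, m0 ≤ m ∧ LL ε m ≤ v ∧ v ∈ Y m} ∩ Set.Icc 1 t) ⊆ (W : Set ℕ) := by
      rintro v ⟨⟨m, -, hm1, hm2⟩, -, hvt⟩
      rw [mem_coe, hW, mem_biUnion]
      exact ⟨m, mem_range.2 (m_le ε hε2 m t (hm1.trans hvt)), mem_filter.2 ⟨hm2, hm1, hvt⟩⟩
    have h1 : (({v | ∃ m, m0 ≤ m ∧ LL ε m ≤ v ∧ v ∈ Y m} ∩ Set.Icc 1 t).ncard : ℝ) ≤ (W.card : ℝ) := by
      have := Set.ncard_le_ncard hsub (W.finite_toSet)
      rw [Set.ncard_coe_finset] at this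
      exact_mod_cast this
    have hb : ∀ m, ∀ r : ℕ → ℕ, (((blk (kk ε m) (LL ε m) r).filter
        (fun v => LL ε m ≤ v ∧ v ≤ t)).card : ℝ) ≤ 4 * (t : ℝ) ^ (1 / 2 + ε) := by
      intro m r
      by_cases hL : LL ε m ≤ t
      · refine le_trans ?_ (blk_count ε hε hε2 m r t ht hL)
        have : (blk (kk ε m) (LL ε m) r).filter (fun v => LL ε m ≤ v ∧ v ≤ t) ⊆
            (blk (kk ε m) (LL ε m) r).filter (fun v => v ≤ t) := by
          intro v hv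
          rw [mem_filter] at hv ⊢
          exact ⟨hv.1, hv.2.2⟩
        exact_mod_cast card_le_card this
      · have : (blk (kk ε m) (LL ε m) r).filter (fun v => LL ε m ≤ v ∧ v ≤ t) = ∅ := by
          rw [filter_eq_empty_iff]
          rintro v - ⟨h1, h2⟩
          exact hL (h1.trans h2)
        rw [this]
        simp only [card_empty, Nat.cast_zero]
        positivity
    have h2 : (W.card : ℝ) ≤ M * (16 * (t : ℝ) ^ (1 / 2 + ε)) := by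
      have h3 : W.card ≤ ∑ m ∈ range M, ((Y m).filter (fun v => LL ε m ≤ v ∧ v ≤ t)).card := card_biUnion_le
      have h4 : (W.card : ℝ) ≤ ∑ m ∈ range M, (((Y m).filter (fun v => LL ε m ≤ v ∧ v ≤ t)).card : ℝ) := by
        exact_mod_cast h3
      refine h4.trans ?_
      have h5 : ∀ m ∈ range M, (((Y m).filter (fun v => LL ε m ≤ v ∧ v ≤ t)).card : ℝ) ≤
          16 * (t : ℝ) ^ (1 / 2 + ε) := by
        intro m _
        have e1 : (Y m).filter (fun v => LL ε m ≤ v ∧ v ≤ t) =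
            ((blk (kk ε m) (LL ε m) (r1 m)).filter (fun v => LL ε m ≤ v ∧ v ≤ t) ∪
              (blk (kk ε m) (LL ε m) (r2 m)).filter (fun v => LL ε m ≤ v ∧ v ≤ t)) ∪
            ((blk (kk ε m) (LL ε m) (r3 m)).filter (fun v => LL ε m ≤ v ∧ v ≤ t) ∪
              (blk (kk ε m) (LL ε m) (r4 m)).filter (fun v => LL ε m ≤ v ∧ v ≤ t)) := by
          rw [hY]
          simp only [filter_union]
        have g1 := hb m (r1 m)
        have g2 := hb m (r2 m)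
        have g3 := hb m (r3 m)
        have g4 := hb m (r4 m)
        have g5 : (((Y m).filter (fun v => LL ε m ≤ v ∧ v ≤ t)).card : ℝ) ≤
            ((((blk (kk ε m) (LL ε m) (r1 m)).filter (fun v => LL ε m ≤ v ∧ v ≤ t)).card : ℝ) +
              (((blk (kk ε m) (LL ε m) (r2 m)).filter (fun v => LL ε m ≤ v ∧ v ≤ t)).card : ℝ)) +
            ((((blk (kk ε m) (LL ε m) (r3 m)).filter (fun v => LL ε m ≤ v ∧ v ≤ t)).card : ℝ) +
              (((blk (kk ε m) (LL ε m) (r4 m)).filter (fun v => LL ε m ≤ v ∧ v ≤ t)).card : ℝ)) := by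
          rw [e1]
          exact_mod_cast (card_union_le _ _).trans (Nat.add_le_add (card_union_le _ _) (card_union_le _ _))
        linarith
      calc _ ≤ ∑ m ∈ range M, 16 * (t : ℝ) ^ (1 / 2 + ε) := sum_le_sum h5
        _ = M * (16 * (t : ℝ) ^ (1 / 2 + ε)) := by rw [sum_const, card_range, nsmul_eq_mul]
    have h6 : (M : ℝ) ≤ (8 / ε + 5) * (t : ℝ) ^ ε := by
      have g1 : ((Nat.log 2 t : ℕ) : ℝ) ≤ Real.logb 2 t := by
        exact_mod_cast Real.natLog_le_logb t 2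
      have g2 : Real.logb 2 t ≤ 2 * Real.log t := by
        unfold Real.logb
        rw [div_le_iff₀ (Real.log_pos (by norm_num))]
        have := Real.log_two_gt_d9
        have h0 : 0 ≤ Real.log t := Real.log_nonneg htr
        nlinarith
      have g3 : Real.log t ≤ (t : ℝ) ^ ε / ε := Real.log_le_rpow_div ht0.le hε
      have g4 : 1 ≤ (t : ℝ) ^ ε := Real.one_le_rpow htr hε.le
      have g5 : (M : ℝ) = 4 * ((Nat.log 2 t : ℕ) : ℝ) + 4 := by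
        rw [hM]
        push_cast
        ring
      rw [g5]
      calc 4 * ((Nat.log 2 t : ℕ) : ℝ) + 4 ≤ 4 * (2 * ((t : ℝ) ^ ε / ε)) + 5 * (t : ℝ) ^ ε := by linarith
        _ = (8 / ε + 5) * (t : ℝ) ^ ε := by ring
    calc _ ≤ (W.card : ℝ) := h1
      _ ≤ M * (16 * (t : ℝ) ^ (1 / 2 + ε)) := h2
      _ ≤ ((8 / ε + 5) * (t : ℝ) ^ ε) * (16 * (t : ℝ) ^ (1 / 2 + ε)) := by gcongr
      _ = 16 * (8 / ε + 5) * ((t : ℝ) ^ ε * (t : ℝ) ^ (1 / 2 + ε)) := by ring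
      _ = 16 * (8 / ε + 5) * (t : ℝ) ^ (1 / 2 + 2 * ε) := by
          rw [← Real.rpow_add ht0]
          congr 2
          ring
  · intro n hn hT
    have hn0 : n0 ≤ n := le_trans (le_max_left _ _) hn
    have hn1 : 4 ^ m0 ≤ n := le_trans (le_max_right _ _) hn
    have hnpos : n ≠ 0 := by
      have : 0 < 4 ^ m0 := by positivity
      omega
    set m := Nat.log 4 n + 1 with hm
    have hmm : m0 ≤ m := by
      have := Nat.le_log_of_pow_le (by norm_num : 1 < 4) hn1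
      omega
    have hnm : n ∈ N m := by
      rw [hN]
      simp only [mem_filter, mem_range]
      refine ⟨Nat.lt_pow_succ_log_self (by norm_num) n, ?_, hn0, hT⟩
      rw [hm, Nat.add_sub_cancel]
      exact Nat.pow_log_le_self 4 hnpos
    obtain ⟨-, -, -, -, hfin⟩ := hr m hmm
    refine ⟨_, hfin n hnm, ?_⟩
    intro q hq
    rw [mem_filter] at hq
    obtain ⟨hq1, ⟨l1, l2, l3, l4⟩, ⟨b1, b2, b3⟩, b4⟩ := hq
    refine ⟨⟨⟨m, hmm, l1, ?_⟩, ⟨m, hmm, l2, ?_⟩, ⟨m, hmm, l3, ?_⟩, ⟨m, hmm, l4, ?_⟩⟩,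
      (hS n hn0 hT).2 q hq1⟩
    · rw [hY]
      exact mem_union_left _ (mem_union_left _ b1)
    · rw [hY]
      exact mem_union_left _ (mem_union_right _ b2)
    · rw [hY]
      exact mem_union_right _ (mem_union_left _ b3)
    · rw [hY]
      exact mem_union_right _ (mem_union_right _ b4)

/-- the exponent `1/2` is optimal -/
theorem lower (κ : ℕ) (X : Set ℕ) (hκ : 1 ≤ κ) (n1 : ℕ) (h : ∀ n, n1 ≤ n → Odd n →
      ∃ x ∈ X, ∃ y ∈ X, ∃ z ∈ X, ∃ w ∈ X, n = x ^ 2 + y ^ 2 + z ^ 2 + (κ * w) ^ 2) :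
    ∃ t0 : ℕ, ∀ t : ℕ, t0 ≤ t → (t : ℝ) ^ (1 / 2 : ℝ) / 2 ≤ ((X ∩ Set.Icc 1 t).ncard : ℝ) := by
  classical
  refine ⟨4 * n1 + 200, ?_⟩
  intro t ht
  set A : Finset ℕ := (range (t + 1)).filter (fun v => v ∈ X) with hA
  have h' : ∀ n, ∃ p : ℕ × ℕ × ℕ × ℕ, n1 ≤ n → Odd n → p.1 ∈ X ∧ p.2.1 ∈ X ∧ p.2.2.1 ∈ X ∧ p.2.2.2 ∈ X ∧
      n = p.1 ^ 2 + p.2.1 ^ 2 + p.2.2.1 ^ 2 + (κ * p.2.2.2) ^ 2 := by
    intro n
    by_cases hn : n1 ≤ n ∧ Odd n
    · obtain ⟨x, hx, y, hy, z, hz, w, hw, e⟩ := h n hn.1 hn.2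
      exact ⟨(x, y, z, w), fun _ _ => ⟨hx, hy, hz, hw, e⟩⟩
    · exact ⟨(0, 0, 0, 0), fun a b => absurd ⟨a, b⟩ hn⟩
  choose p hp using h'
  -- the odd numbers `2 i + 1` with `n1 ≤ i`, `2 i + 1 ≤ t ^ 2`
  set B : Finset ℕ := (Ico n1 (t ^ 2 / 2)) with hB
  have hmap : ∀ i ∈ B, p (2 * i + 1) ∈ A ×ˢ (A ×ˢ (A ×ˢ A)) := by
    intro i hi
    rw [hB, mem_Ico] at hi
    obtain ⟨h1, h2, h3, h4, h5⟩ := hp (2 * i + 1) (by omega) ⟨i, rfl⟩
    have h6 : 2 * i + 1 ≤ t ^ 2 := by omega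
    have h7 : ∀ v : ℕ, v ^ 2 ≤ 2 * i + 1 → v ∈ X → v ∈ A := by
      intro v hv hvX
      rw [hA, mem_filter, mem_range]
      refine ⟨?_, hvX⟩
      have : v ^ 2 ≤ t ^ 2 := hv.trans h6
      have := (Nat.pow_le_pow_iff_left (two_ne_zero)).1 this
      omega
    have h8 : (p (2 * i + 1)).2.2.2 ^ 2 ≤ (κ * (p (2 * i + 1)).2.2.2) ^ 2 :=
      Nat.pow_le_pow_left (Nat.le_mul_of_pos_left _ hκ) 2
    rw [mem_product, mem_product, mem_product]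
    exact ⟨h7 _ (by omega) h1, h7 _ (by omega) h2, h7 _ (by omega) h3, h7 _ (by omega) h4⟩
  have hinj : ∀ i ∈ B, ∀ j ∈ B, p (2 * i + 1) = p (2 * j + 1) → i = j := by
    intro i hi j hj e
    rw [hB, mem_Ico] at hi hj
    obtain ⟨-, -, -, -, h5⟩ := hp (2 * i + 1) (by omega) ⟨i, rfl⟩
    obtain ⟨-, -, -, -, h6⟩ := hp (2 * j + 1) (by omega) ⟨j, rfl⟩
    rw [e, ← h6] at h5
    omega
  have hcard : B.card ≤ A.card ^ 4 := by
    have := Finset.card_le_card_of_injOn (fun i => p (2 * i + 1)) hmap (fun i hi j hj e => hinj i hi j hj e)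
    rw [card_product, card_product, card_product] at this
    calc _ ≤ _ := this
      _ = A.card ^ 4 := by ring
  rw [hB, Nat.card_Ico] at hcard
  have hA1 : A.card ≤ (X ∩ Set.Icc 1 t).ncard + 1 := by
    have h1 : A ⊆ insert 0 ((Icc 1 t).filter (fun v => v ∈ X)) := by
      intro v hv
      rw [hA, mem_filter, mem_range] at hv
      rw [mem_insert, mem_filter, mem_Icc]
      by_cases h0 : v = 0
      · exact Or.inl h0
      · exact Or.inr ⟨⟨by omega, by omega⟩, hv.2⟩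
    have h2 : (X ∩ Set.Icc 1 t) = (((Icc 1 t).filter (fun v => v ∈ X) : Finset ℕ) : Set ℕ) := by
      ext v
      simp only [Set.mem_inter_iff, Set.mem_Icc, coe_filter, mem_Icc, Set.mem_setOf_eq]
      tauto
    rw [h2, Set.ncard_coe_finset]
    exact (card_le_card h1).trans (card_insert_le _ _)
  set a := (X ∩ Set.Icc 1 t).ncard with ha
  -- `t ^ 2 / 4 ≤ A.card ^ 4`
  have h1 : (t : ℝ) ^ 2 / 4 ≤ ((a : ℝ) + 1) ^ 4 := by
    have h2 : t ^ 2 / 2 - n1 ≤ (a + 1) ^ 4 := hcard.trans (Nat.pow_le_pow_left hA1 4)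
    have h3 : (t ^ 2 : ℕ) ≤ 4 * (t ^ 2 / 2 - n1) := by
      have h4 : 200 * t ≤ t ^ 2 := by nlinarith
      omega
    have h5 : t ^ 2 ≤ 4 * (a + 1) ^ 4 := by omega
    have h6 : ((t : ℝ)) ^ 2 ≤ 4 * ((a : ℝ) + 1) ^ 4 := by exact_mod_cast h5
    linarith
  have htr : (200 : ℝ) ≤ t := by
    have : 200 ≤ t := by omega
    exact_mod_cast this
  set s : ℝ := (t : ℝ) ^ (1 / 2 : ℝ) with hs
  have hs2 : s ^ 2 = t := by
    rw [hs, ← Real.rpow_natCast, ← Real.rpow_mul (by linarith)]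
    norm_num
  have hs0 : 0 ≤ s := by positivity
  have hs14 : 14 ≤ s := by nlinarith
  by_contra hcon
  push_neg at hcon
  have h7 : (a : ℝ) + 1 < s / 2 + 1 := by linarith
  have h8 : ((a : ℝ) + 1) ^ 4 < (s / 2 + 1) ^ 4 := by
    have : (0 : ℝ) ≤ (a : ℝ) + 1 := by positivity
    gcongr
  rw [← hs2] at h1
  have h9 : (s / 2 + 1) ^ 2 ≤ s ^ 2 / 2 := by nlinarith
  have h10 : (s / 2 + 1) ^ 4 ≤ (s ^ 2) ^ 2 / 4 := by
    have : (s / 2 + 1) ^ 4 = ((s / 2 + 1) ^ 2) ^ 2 := by ring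
    rw [this]
    have h11 : (0 : ℝ) ≤ (s / 2 + 1) ^ 2 := by positivity
    nlinarith
  linarith

end Pool.Agent.H563.T4
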