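import Pool.Agent.H563.T4.Final
import Pool.Graph.R_seed8.Results.MP_0ad054_nt.AlmostPrimePairs
import Pool.Graph.R_pool_sql_team_seeded_64922ed1.Results.MP_0ad054_nt.AlmostPrimeVariables

set_option autoImplicit false

/-!
# Quadruples of natural numbers for the problem on `x² + 3 y² + 5 z² + 7 w²`
-/

namespace Pool.Agent.H563.T4

open Finset Filter Topology

/-- the absolute values of the coordinates -/
def nabs (v : ℤ × ℤ × ℤ × ℤ) : ℕ × ℕ × ℕ × ℕ := (v.1.natAbs, v.2.1.natAbs, v.2.2.1.natAbs, v.2.2.2.natAbs)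

lemma card_nabs (S : Finset (ℤ × ℤ × ℤ × ℤ)) : S.card ≤ 16 * (S.image nabs).card := by
  classical
  apply Finset.card_le_mul_card_image
  rintro ⟨a, b, c, d⟩ -
  have hsub : S.filter (fun v => nabs v = (a, b, c, d)) ⊆
      ({(a : ℤ), -(a : ℤ)} : Finset ℤ) ×ˢ (({(b : ℤ), -(b : ℤ)} : Finset ℤ) ×ˢ
        (({(c : ℤ), -(c : ℤ)} : Finset ℤ) ×ˢ ({(d : ℤ), -(d : ℤ)} : Finset ℤ))) := by
    rintro ⟨x, y, z, w⟩ hv
    rw [mem_filter] at hv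
    obtain ⟨-, h⟩ := hv
    unfold nabs at h
    simp only [Prod.mk.injEq] at h
    obtain ⟨h1, h2, h3, h4⟩ := h
    simp only [mem_product, mem_insert, mem_singleton]
    exact ⟨by omega, by omega, by omega, by omega⟩
  refine (card_le_card hsub).trans ?_
  rw [card_product, card_product, card_product]
  have h2 : ∀ u : ℤ, ({u, -u} : Finset ℤ).card ≤ 2 := fun u => card_le_two
  calc _ ≤ 2 * (2 * (2 * 2)) := Nat.mul_le_mul (h2 _) (Nat.mul_le_mul (h2 _) (Nat.mul_le_mul (h2 _) (h2 _)))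
    _ = 16 := by norm_num

/-- `m` has at most `K` prime factors, all larger than `y` -/
def AP (K : ℕ) (y : ℝ) (m : ℕ) : Prop :=
  m ≠ 0 ∧ ArithmeticFunction.cardFactors m ≤ K ∧ ∀ q : ℕ, q.Prime → q ∣ m → y < q

lemma AP_dvd {K : ℕ} {y : ℝ} {m m' : ℕ} (h : AP K y m) (hd : m' ∣ m) : AP K y m' := by
  obtain ⟨h1, h2, h3⟩ := h
  obtain ⟨c, rfl⟩ := hd
  have hm' : m' ≠ 0 := left_ne_zero_of_mul h1
  have hc : c ≠ 0 := right_ne_zero_of_mul h1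
  refine ⟨hm', ?_, fun q hq hqd => h3 q hq (hqd.mul_right c)⟩
  rw [ArithmeticFunction.cardFactors_mul hm' hc] at h2
  omega

/-- the odd part has at most `K` prime factors, all larger than `y` -/
def OP (K : ℕ) (y : ℝ) (v : ℕ) : Prop := ∃ a m : ℕ, v = 2 ^ a * m ∧ AP K y m

lemma OP_dvd {K : ℕ} {y : ℝ} {v e m : ℕ} (h : AP K y m) (hv : v ∣ 2 ^ e * m) : OP K y v := by
  have h0 : 2 ^ e * m ≠ 0 := mul_ne_zero (by positivity) h.1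
  have hv0 : v ≠ 0 := fun h' => by
    rw [h', zero_dvd_iff] at hv
    exact h0 hv
  obtain ⟨a, m', hodd, rfl⟩ := Nat.exists_eq_two_pow_mul_odd hv0
  refine ⟨a, m', rfl, AP_dvd h ?_⟩
  have h1 : m' ∣ 2 ^ e * m := (Dvd.intro_left (2 ^ a) rfl).trans hv
  exact (Nat.Coprime.pow_right e (Nat.coprime_two_right.2 hodd)).dvd_of_dvd_mul_left h1

/-- all odd numbers -/
theorem inputA (ε : ℝ) (hε : 0 < ε) : ∃ K : ℕ, ∃ δ : ℝ, 0 < δ ∧ ∃ n₀ : ℕ, ∀ n : ℕ, n₀ ≤ n → Odd n →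
    ∃ S : Finset (ℕ × ℕ × ℕ × ℕ), (n : ℝ) ^ (1 - ε) ≤ (S.card : ℝ) ∧ ∀ q ∈ S,
      n = q.1 ^ 2 + q.2.1 ^ 2 + q.2.2.1 ^ 2 + (1 * q.2.2.2) ^ 2 ∧
      AP K ((n : ℝ) ^ δ) (q.1 ^ 2 + 3 * q.2.1 ^ 2 + 5 * q.2.2.1 ^ 2 + 7 * q.2.2.2 ^ 2) ∧
      AP K ((n : ℝ) ^ δ) (q.1 ^ 2 + 3 * q.2.1 ^ 2 + 5 * q.2.2.1 ^ 2 + 7 * q.2.2.2 ^ 2 - 2) := by
  classical
  obtain ⟨K, δ, hδ, c, hc, h⟩ := Pool.Agent.Results.MP_0ad054_nt.AlmostPrimePairs.result (ε / 2) (by positivity)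
  have hlarge : ∀ᶠ n : ℕ in atTop, 16 / c ≤ (n : ℝ) ^ (ε / 2) :=
    ((tendsto_rpow_atTop (by positivity)).comp tendsto_natCast_atTop_atTop).eventually_ge_atTop _
  obtain ⟨n₁, hn₁⟩ := hlarge.exists_forall_of_atTop
  refine ⟨K, δ, hδ, n₁ + 3, ?_⟩
  intro n hn hodd
  obtain ⟨S, hS1, hS2⟩ := h n hodd
  have hn0 : (0 : ℝ) < n := by exact_mod_cast (show 0 < n by omega)
  refine ⟨S.image nabs, ?_, ?_⟩
  · have h1 := hn₁ n (by omega)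
    have h2 : (S.card : ℝ) ≤ 16 * ((S.image nabs).card : ℝ) := by exact_mod_cast card_nabs S
    have h3 : (n : ℝ) ^ (1 - ε / 2) = (n : ℝ) ^ (1 - ε) * (n : ℝ) ^ (ε / 2) := by
      rw [← Real.rpow_add hn0]
      congr 1
      ring
    have h4 : 16 * (n : ℝ) ^ (1 - ε) ≤ c * (n : ℝ) ^ (1 - ε / 2) := by
      rw [h3]
      rw [div_le_iff₀ hc] at h1
      have h5 : 0 < (n : ℝ) ^ (1 - ε) := by positivity
      nlinarith
    linarith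
  · intro q hq
    rw [mem_image] at hq
    obtain ⟨⟨x, y, z, w⟩, hv, rfl⟩ := hq
    obtain ⟨g1, g2, g3, g4, g5, g6⟩ := hS2 x y z w hv
    unfold nabs
    simp only
    have e1 : ((x.natAbs ^ 2 + 3 * y.natAbs ^ 2 + 5 * z.natAbs ^ 2 + 7 * w.natAbs ^ 2 : ℕ) : ℤ) =
        x ^ 2 + 3 * y ^ 2 + 5 * z ^ 2 + 7 * w ^ 2 := by
      push_cast
      rw [sq_abs, sq_abs, sq_abs, sq_abs]
    have e2 : ((x.natAbs ^ 2 + y.natAbs ^ 2 + z.natAbs ^ 2 + w.natAbs ^ 2 : ℕ) : ℤ) =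
        x ^ 2 + y ^ 2 + z ^ 2 + w ^ 2 := by
      push_cast
      rw [sq_abs, sq_abs, sq_abs, sq_abs]
    set p := x.natAbs ^ 2 + 3 * y.natAbs ^ 2 + 5 * z.natAbs ^ 2 + 7 * w.natAbs ^ 2 with hp
    have hpn : n ≤ p := by
      have : (n : ℤ) ≤ p := by
        rw [e1, g1]
        nlinarith [sq_nonneg x, sq_nonneg y, sq_nonneg z, sq_nonneg w]
      exact_mod_cast this
    have e3 : (x ^ 2 + 3 * y ^ 2 + 5 * z ^ 2 + 7 * w ^ 2 : ℤ).natAbs = p := by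
      rw [← e1, Int.natAbs_natCast]
    have e4 : (x ^ 2 + 3 * y ^ 2 + 5 * z ^ 2 + 7 * w ^ 2 - 2 : ℤ).natAbs = p - 2 := by
      rw [← e1]
      omega
    rw [e3] at g4
    rw [e4] at g5
    have e5 : (x ^ 2 + 3 * y ^ 2 + 5 * z ^ 2 + 7 * w ^ 2 : ℤ) * (x ^ 2 + 3 * y ^ 2 + 5 * z ^ 2 + 7 * w ^ 2 - 2) =
        ((p * (p - 2) : ℕ) : ℤ) := by
      rw [← e1]
      push_cast [Nat.cast_sub (show 2 ≤ p by omega)]
      ring
    rw [e5] at g6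
    refine ⟨?_, ⟨by omega, g4, ?_⟩, ⟨by omega, g5, ?_⟩⟩
    · rw [one_mul]
      have : (n : ℤ) = ((x.natAbs ^ 2 + y.natAbs ^ 2 + z.natAbs ^ 2 + w.natAbs ^ 2 : ℕ) : ℤ) := by
        rw [e2]
        exact g1
      exact_mod_cast this
    · intro l hl hd
      exact g6 l hl (by exact_mod_cast hd.mul_right _)
    · intro l hl hd
      exact g6 l hl (by exact_mod_cast hd.mul_left _)

/-- odd numbers congruent to `1` modulo `3`, almost prime variables -/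
theorem inputB (ε : ℝ) (hε : 0 < ε) : ∃ K : ℕ, ∃ δ : ℝ, 0 < δ ∧ ∃ n₀ : ℕ, ∀ n : ℕ, n₀ ≤ n → (Odd n ∧ n % 3 = 1) →
    ∃ S : Finset (ℕ × ℕ × ℕ × ℕ), (n : ℝ) ^ (1 - ε) ≤ (S.card : ℝ) ∧ ∀ q ∈ S,
      n = q.1 ^ 2 + q.2.1 ^ 2 + q.2.2.1 ^ 2 + (1 * q.2.2.2) ^ 2 ∧
      (AP K ((n : ℝ) ^ δ) (q.1 ^ 2 + 3 * q.2.1 ^ 2 + 5 * q.2.2.1 ^ 2 + 7 * q.2.2.2 ^ 2) ∧
      AP K ((n : ℝ) ^ δ) (q.1 ^ 2 + 3 * q.2.1 ^ 2 + 5 * q.2.2.1 ^ 2 + 7 * q.2.2.2 ^ 2 - 2)) ∧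
      (OP K ((n : ℝ) ^ δ) q.1 ∧ OP K ((n : ℝ) ^ δ) q.2.1 ∧ OP K ((n : ℝ) ^ δ) q.2.2.1 ∧
        OP K ((n : ℝ) ^ δ) q.2.2.2) := by
  classical
  obtain ⟨K, δ, hδ, n₀, h⟩ := Pool.Agent.Results.MP_0ad054_nt.AlmostPrimeVariables.result (ε / 2) (by positivity)
  have hlarge : ∀ᶠ n : ℕ in atTop, 16 ≤ (n : ℝ) ^ (ε / 2) :=
    ((tendsto_rpow_atTop (by positivity)).comp tendsto_natCast_atTop_atTop).eventually_ge_atTop _
  obtain ⟨n₁, hn₁⟩ := hlarge.exists_forall_of_atTop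
  refine ⟨K, δ, hδ, n₀ + n₁ + 3, ?_⟩
  rintro n hn ⟨hodd, hn3⟩
  have hn0 : (0 : ℝ) < n := by exact_mod_cast (show 0 < n by omega)
  have hn1 : (1 : ℝ) ≤ n := by exact_mod_cast (show 1 ≤ n by omega)
  obtain ⟨S, hS1, hS2⟩ := h n hodd hn3 (by omega) 1 odd_one squarefree_one
    (by rw [Nat.cast_one]; exact Real.one_le_rpow hn1 hδ.le) 0 0 0 0 (by simp) (by
      rw [Nat.cast_one]
      exact isCoprime_one_right)
  refine ⟨S.image nabs, ?_, ?_⟩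
  · have h1 := hn₁ n (by omega)
    have h2 : (S.card : ℝ) ≤ 16 * ((S.image nabs).card : ℝ) := by exact_mod_cast card_nabs S
    have h3 : (n : ℝ) ^ (1 - ε / 2) = (n : ℝ) ^ (1 - ε) * (n : ℝ) ^ (ε / 2) := by
      rw [← Real.rpow_add hn0]
      congr 1
      ring
    have h4 : 16 * (n : ℝ) ^ (1 - ε) ≤ (n : ℝ) ^ (1 - ε / 2) := by
      rw [h3]
      have h5 : 0 < (n : ℝ) ^ (1 - ε) := by positivity
      nlinarith
    linarith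
  · intro q hq
    rw [mem_image] at hq
    obtain ⟨⟨x, y, z, w⟩, hv, rfl⟩ := hq
    obtain ⟨g1, -, ⟨g3, g4, g5, g6⟩, g7, e, m, g8, g9, g10⟩ := hS2 x y z w hv
    unfold Pool.Agent.Results.MP_0ad054_nt.AlmostPrimeVariables.Ω
      Pool.Agent.Results.MP_0ad054_nt.AlmostPrimeVariables.p at g4 g5
    unfold Pool.Agent.Results.MP_0ad054_nt.AlmostPrimeVariables.p at g3 g6
    unfold nabs
    simp only
    have e1 : ((x.natAbs ^ 2 + 3 * y.natAbs ^ 2 + 5 * z.natAbs ^ 2 + 7 * w.natAbs ^ 2 : ℕ) : ℤ) =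
        x ^ 2 + 3 * y ^ 2 + 5 * z ^ 2 + 7 * w ^ 2 := by
      push_cast
      rw [sq_abs, sq_abs, sq_abs, sq_abs]
    have e2 : ((x.natAbs ^ 2 + y.natAbs ^ 2 + z.natAbs ^ 2 + w.natAbs ^ 2 : ℕ) : ℤ) =
        x ^ 2 + y ^ 2 + z ^ 2 + w ^ 2 := by
      push_cast
      rw [sq_abs, sq_abs, sq_abs, sq_abs]
    set p := x.natAbs ^ 2 + 3 * y.natAbs ^ 2 + 5 * z.natAbs ^ 2 + 7 * w.natAbs ^ 2 with hp
    have hpn : n ≤ p := by
      have : (n : ℤ) ≤ p := by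
        rw [e1, g1]
        nlinarith [sq_nonneg x, sq_nonneg y, sq_nonneg z, sq_nonneg w]
      exact_mod_cast this
    have e3 : (x ^ 2 + 3 * y ^ 2 + 5 * z ^ 2 + 7 * w ^ 2 : ℤ).natAbs = p := by
      rw [← e1, Int.natAbs_natCast]
    have e4 : (x ^ 2 + 3 * y ^ 2 + 5 * z ^ 2 + 7 * w ^ 2 - 2 : ℤ).natAbs = p - 2 := by
      rw [← e1]
      omega
    rw [e3] at g4
    rw [e4] at g5
    have e5 : (x ^ 2 + 3 * y ^ 2 + 5 * z ^ 2 + 7 * w ^ 2 : ℤ) * (x ^ 2 + 3 * y ^ 2 + 5 * z ^ 2 + 7 * w ^ 2 - 2) =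
        ((p * (p - 2) : ℕ) : ℤ) := by
      rw [← e1]
      push_cast [Nat.cast_sub (show 2 ≤ p by omega)]
      ring
    rw [e5] at g6
    have hm0 : m ≠ 0 := by
      rintro rfl
      rw [mul_zero] at g8
      exact g7 (Int.natAbs_eq_zero.1 g8)
    have hAP : AP K ((n : ℝ) ^ δ) m := ⟨hm0, g9, g10⟩
    have hdv : ∀ v : ℤ, v ∣ x * y * z * w → OP K ((n : ℝ) ^ δ) v.natAbs := by
      intro v hv
      apply OP_dvd hAP (e := e)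
      rw [← g8]
      exact Int.natAbs_dvd_natAbs.2 hv
    refine ⟨?_, ⟨⟨by omega, g4, ?_⟩, ⟨by omega, g5, ?_⟩⟩, hdv x ⟨y * z * w, by ring⟩, hdv y ⟨x * z * w, by ring⟩,
      hdv z ⟨x * y * w, by ring⟩, hdv w ⟨x * y * z, by ring⟩⟩
    · rw [one_mul]
      have : (n : ℤ) = ((x.natAbs ^ 2 + y.natAbs ^ 2 + z.natAbs ^ 2 + w.natAbs ^ 2 : ℕ) : ℤ) := by
        rw [e2]
        exact g1
      exact_mod_cast this
    · intro l hl hd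
      exact g6 l hl (by exact_mod_cast hd.mul_right _)
    · intro l hl hd
      exact g6 l hl (by exact_mod_cast hd.mul_left _)

end Pool.Agent.H563.T4
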