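import Pool.Agent.H563.T4.Comb

set_option autoImplicit false

/-!
# The parameters of one scale
-/

namespace Pool.Agent.H563.T4

open Finset Filter Topology

lemma ev_exp (a c δ η : ℝ) (hc : 0 < c) (hδ : 0 < δ) (hη : 0 < η) :
    ∀ᶠ q : ℝ in atTop, q ^ a * Real.exp (-(c * q ^ δ)) < η := by
  have h1 := tendsto_rpow_mul_exp_neg_mul_atTop_nhds_zero (a / δ) c hc
  have h2 := h1.comp (tendsto_rpow_atTop hδ)
  have h3 := h2.eventually (gt_mem_nhds hη)
  filter_upwards [h3, eventually_ge_atTop 0] with q hq hq0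
  simp only [Function.comp_apply] at hq
  rw [← Real.rpow_mul hq0, mul_div_cancel₀ _ hδ.ne'] at hq
  rw [← neg_mul]
  exact hq

lemma ev_neg (c δ η : ℝ) (hδ : 0 < δ) (hη : 0 < η) :
    ∀ᶠ q : ℝ in atTop, c * q ^ (-δ) < η := by
  have h1 := (tendsto_rpow_neg_atTop hδ).const_mul c
  rw [mul_zero] at h1
  exact h1.eventually (gt_mem_nhds hη)

/-- the exponent of the length of the blocks -/
noncomputable def ll (ε : ℝ) (m : ℕ) : ℕ := ⌊(1 / 2 - ε) * m⌋₊

lemma ll_le (ε : ℝ) (hε : 0 < ε) (hε2 : ε ≤ 1 / 12) (m : ℕ) : ll ε m ≤ m := by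
  unfold ll
  apply Nat.floor_le_of_le
  have : (0 : ℝ) ≤ m := by positivity
  nlinarith

lemma L_up (ε : ℝ) (hε2 : ε ≤ 1 / 12) (m : ℕ) :
    ((2 ^ ll ε m : ℕ) : ℝ) ≤ ((2 : ℝ) ^ m) ^ (1 / 2 - ε) := by
  push_cast
  rw [← Real.rpow_natCast 2 (ll ε m), ← Real.rpow_natCast 2 m, ← Real.rpow_mul (by norm_num)]
  apply Real.rpow_le_rpow_of_exponent_le (by norm_num)
  unfold ll
  rw [mul_comm (m : ℝ)]
  exact Nat.floor_le (by have : (0 : ℝ) ≤ m := by positivity
                         nlinarith)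

lemma L_low (ε : ℝ) (m : ℕ) :
    ((2 : ℝ) ^ m) ^ (1 / 2 - ε) ≤ 2 * ((2 ^ ll ε m : ℕ) : ℝ) := by
  push_cast
  rw [← Real.rpow_natCast 2 (ll ε m), ← Real.rpow_natCast 2 m, ← Real.rpow_mul (by norm_num)]
  have e : (2 : ℝ) * 2 ^ ((ll ε m : ℕ) : ℝ) = 2 ^ (((ll ε m : ℕ) : ℝ) + 1) := by
    rw [Real.rpow_add (by norm_num), Real.rpow_one]
    ring
  rw [e]
  apply Real.rpow_le_rpow_of_exponent_le (by norm_num)
  unfold ll
  rw [mul_comm (m : ℝ)]
  exact (Nat.lt_floor_add_one _).le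

/-- the number of blocks -/
noncomputable def kk (ε : ℝ) (m : ℕ) : ℕ := 2 ^ (m - ll ε m)

/-- the length of the blocks -/
noncomputable def LL (ε : ℝ) (m : ℕ) : ℕ := 2 ^ ll ε m

lemma kk_mul (ε : ℝ) (hε : 0 < ε) (hε2 : ε ≤ 1 / 12) (m : ℕ) : kk ε m * LL ε m = 2 ^ m := by
  unfold kk LL
  rw [← pow_add, Nat.sub_add_cancel (ll_le ε hε hε2 m)]

lemma LL_pos (ε : ℝ) (m : ℕ) : 0 < LL ε m := by
  unfold LL
  positivity

lemma kk_pos (ε : ℝ) (m : ℕ) : 0 < kk ε m := by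
  unfold kk
  positivity

/-- the numerical inequalities, in terms of real numbers -/
theorem num (ε C : ℝ) (hε : 0 < ε) (hε2 : ε ≤ 1 / 12) (hC : 1 ≤ C) :
    ∃ q0 : ℝ, 1 ≤ q0 ∧ ∀ q L k N Γ D : ℝ, q0 ≤ q → 0 < L → 0 < k → k * L = q → L ≤ q ^ (1 / 2 - ε) →
      q ^ (1 / 2 - ε) ≤ 2 * L → 0 ≤ N → N ≤ q ^ 2 → Γ = q ^ (2 - ε / 4) / 8 → D = C * q ^ (ε / 4) →
      0 < Real.log (q ^ (1 / 4 : ℝ) / 32) ∧
      N * Real.exp (-(Γ / (8 * L * (k * L * D)))) < 1 ∧
      N * Real.exp (-(Γ / (2 * L) / (8 * L * (k * D)))) +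
        (2 * (N * (k * L : ℝ))) * Real.exp ((Real.exp 1 - 1) * (k / L) - 1 * (4 * (k / L))) < 1 ∧
      N * Real.exp (-(Γ / (2 * L) / (2 * L) / (8 * L * (4 * (k / L) * D)))) +
        (N * (k * L : ℝ)) * Real.exp ((Real.exp (Real.log (q ^ (1 / 4 : ℝ) / 32)) - 1) *
          (4 * (k / L) / L) - Real.log (q ^ (1 / 4 : ℝ) / 32) * 16) < 1 ∧
      N * Real.exp (-(Γ / (2 * L) / (2 * L) / (2 * L) / (8 * L * (16 * D)))) < 1 ∧
      q ^ (3 * ε) / 128 ≤ Γ / (2 * L) / (2 * L) / (2 * L) / (2 * L) := by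
  have hC0 : 0 < C := by linarith
  have E1 := ev_exp 2 (1 / (8192 * C)) (2 * ε) (1 / 4) (by positivity) (by positivity) (by norm_num)
  have E2 := ev_exp 3 1 (2 * ε) (1 / 8) (by positivity) (by positivity) (by norm_num)
  have E3 := ev_neg (3 * 32 ^ 16) 1 (1 / 4) one_pos (by norm_num)
  have E4 : ∀ᶠ q : ℝ in atTop, 33 ≤ q ^ (1 / 4 : ℝ) :=
    (tendsto_rpow_atTop (by norm_num : (0 : ℝ) < 1 / 4)).eventually_ge_atTop 33
  obtain ⟨q0, hq0⟩ := eventually_atTop.1 (E1.and (E2.and (E3.and E4)))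
  refine ⟨max q0 1, le_max_right _ _, ?_⟩
  intro q L k N Γ D hq hL hk hkL hL1 hL2 hN0 hN hΓ hD
  obtain ⟨F1, F2, F3, F4⟩ := hq0 q (le_trans (le_max_left _ _) hq)
  have hq1 : 1 ≤ q := le_trans (le_max_right _ _) hq
  have hqp : 0 < q := by linarith
  have hD0 : 0 < D := by rw [hD]; positivity
  have hΓ0 : 0 < Γ := by rw [hΓ]; positivity
  -- the exponent
  have X1 : q ^ (2 * ε) / (8192 * C) ≤ Γ / (1024 * (L * q * D)) * 8 := by
    have h1 : L * q * D ≤ C * q ^ (3 / 2 - 3 / 4 * ε) := by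
      calc L * q * D ≤ q ^ (1 / 2 - ε) * q * D := by gcongr
        _ = C * (q ^ (1 / 2 - ε) * q ^ (1 : ℝ) * q ^ (ε / 4)) := by rw [hD, Real.rpow_one]; ring
        _ = C * q ^ (3 / 2 - 3 / 4 * ε) := by
            rw [← Real.rpow_add hqp, ← Real.rpow_add hqp]
            congr 2
            ring
    have h2 : Γ / (1024 * (C * q ^ (3 / 2 - 3 / 4 * ε))) ≤ Γ / (1024 * (L * q * D)) := by gcongr
    have h3 : Γ / (1024 * (C * q ^ (3 / 2 - 3 / 4 * ε))) * 8 = q ^ (1 / 2 + ε / 2) / (1024 * C) := by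
      have h4 : q ^ (2 - ε / 4) = q ^ (1 / 2 + ε / 2) * q ^ (3 / 2 - 3 / 4 * ε) := by
        rw [← Real.rpow_add hqp]
        congr 1
        ring
      rw [hΓ, h4]
      have h5 : (0 : ℝ) < q ^ (3 / 2 - 3 / 4 * ε) := by positivity
      field_simp
    have h6 : q ^ (2 * ε) ≤ q ^ (1 / 2 + ε / 2) :=
      Real.rpow_le_rpow_of_exponent_le hq1 (by linarith)
    calc q ^ (2 * ε) / (8192 * C) ≤ q ^ (1 / 2 + ε / 2) / (1024 * C) := by
          gcongr
          norm_num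
      _ = Γ / (1024 * (C * q ^ (3 / 2 - 3 / 4 * ε))) * 8 := h3.symm
      _ ≤ _ := by gcongr
  have hE : ∀ x : ℝ, q ^ (2 * ε) / (8192 * C) ≤ x → N * Real.exp (-x) < 1 / 4 := by
    intro x hx
    calc N * Real.exp (-x) ≤ q ^ 2 * Real.exp (-(1 / (8192 * C) * q ^ (2 * ε))) := by
          have h1 : -x ≤ -(1 / (8192 * C) * q ^ (2 * ε)) := by
            rw [one_div_mul_eq_div]
            linarith
          have h2 := Real.exp_le_exp.2 h1
          gcongr
      _ < 1 / 4 := by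
          have := F1
          rwa [show ((2 : ℝ)) = ((2 : ℕ) : ℝ) by norm_num, Real.rpow_natCast] at this
  have hp : 0 < L * q * D := by positivity
  have hLk : k = q / L := by rw [← hkL]; field_simp
  have A1 : q ^ (2 * ε) / (8192 * C) ≤ Γ / (8 * L * (k * L * D)) := by
    have e : Γ / (8 * L * (k * L * D)) = Γ / (1024 * (L * q * D)) * 128 := by
      rw [hkL]
      field_simp
      norm_num
    rw [e]
    have : 0 ≤ Γ / (1024 * (L * q * D)) := by positivity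
    linarith
  have A2 : q ^ (2 * ε) / (8192 * C) ≤ Γ / (2 * L) / (8 * L * (k * D)) := by
    have e : Γ / (2 * L) / (8 * L * (k * D)) = Γ / (1024 * (L * q * D)) * 64 := by
      rw [hLk]
      field_simp
      norm_num
    rw [e]
    have : 0 ≤ Γ / (1024 * (L * q * D)) := by positivity
    linarith
  have A3 : q ^ (2 * ε) / (8192 * C) ≤ Γ / (2 * L) / (2 * L) / (8 * L * (4 * (k / L) * D)) := by
    have e : Γ / (2 * L) / (2 * L) / (8 * L * (4 * (k / L) * D)) = Γ / (1024 * (L * q * D)) * 8 := by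
      rw [hLk]
      field_simp
      norm_num
    rw [e]
    exact X1
  have hL4 : L ^ 4 ≤ q ^ (2 - 4 * ε) := by
    calc L ^ 4 ≤ (q ^ (1 / 2 - ε)) ^ 4 := by gcongr
      _ = q ^ (2 - 4 * ε) := by
          rw [← Real.rpow_natCast, ← Real.rpow_mul hqp.le]
          congr 1
          push_cast
          ring
  have A4 : q ^ (2 * ε) / (8192 * C) ≤ Γ / (2 * L) / (2 * L) / (2 * L) / (8 * L * (16 * D)) := by
    have e : Γ / (2 * L) / (2 * L) / (2 * L) / (8 * L * (16 * D)) = Γ / (1024 * (L ^ 4 * D)) := by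
      field_simp
      norm_num
    rw [e]
    have h1 : L ^ 4 * D ≤ C * q ^ (2 - 15 / 4 * ε) := by
      calc L ^ 4 * D ≤ q ^ (2 - 4 * ε) * D := by gcongr
        _ = C * (q ^ (2 - 4 * ε) * q ^ (ε / 4)) := by rw [hD]; ring
        _ = _ := by
            rw [← Real.rpow_add hqp]
            congr 2
            ring
    have h3 : Γ / (1024 * (C * q ^ (2 - 15 / 4 * ε))) = q ^ (7 / 2 * ε) / (8192 * C) := by
      have h4 : q ^ (2 - ε / 4) = q ^ (7 / 2 * ε) * q ^ (2 - 15 / 4 * ε) := by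
        rw [← Real.rpow_add hqp]
        congr 1
        ring
      rw [hΓ, h4]
      have h5 : (0 : ℝ) < q ^ (2 - 15 / 4 * ε) := by positivity
      field_simp
      norm_num
    calc q ^ (2 * ε) / (8192 * C) ≤ q ^ (7 / 2 * ε) / (8192 * C) := by
          have := Real.rpow_le_rpow_of_exponent_le hq1 (show 2 * ε ≤ 7 / 2 * ε by linarith)
          gcongr
      _ = Γ / (1024 * (C * q ^ (2 - 15 / 4 * ε))) := h3.symm
      _ ≤ _ := by gcongr
  have hkLr : q ^ (2 * ε) ≤ k / L := by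
    rw [hLk, div_div, le_div_iff₀ (by positivity)]
    calc q ^ (2 * ε) * (L * L) ≤ q ^ (2 * ε) * (q ^ (1 / 2 - ε) * q ^ (1 / 2 - ε)) := by gcongr
      _ = q := by
          rw [← Real.rpow_add hqp, ← Real.rpow_add hqp]
          rw [show 2 * ε + (1 / 2 - ε + (1 / 2 - ε)) = 1 by ring, Real.rpow_one]
  have hlog : 0 < Real.log (q ^ (1 / 4 : ℝ) / 32) := by
    apply Real.log_pos
    rw [lt_div_iff₀ (by norm_num)]
    linarith
  refine ⟨hlog, ?_, ?_, ?_, ?_, ?_⟩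
  · have := hE _ A1
    linarith
  · have h1 := hE _ A2
    have h2 : (2 * (N * (k * L : ℝ))) * Real.exp ((Real.exp 1 - 1) * (k / L) - 1 * (4 * (k / L))) ≤
        2 * (q ^ (3 : ℝ) * Real.exp (-(1 * q ^ (2 * ε)))) := by
      have e1 : (q : ℝ) ^ (3 : ℝ) = q ^ 2 * q := by
        rw [show ((3 : ℝ)) = ((3 : ℕ) : ℝ) by norm_num, Real.rpow_natCast]
        ring
      rw [hkL, e1]
      have h3 : (Real.exp 1 - 1) * (k / L) - 1 * (4 * (k / L)) ≤ -(1 * q ^ (2 * ε)) := by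
        have := Real.exp_one_lt_d9
        have h5 : 0 < k / L := by positivity
        nlinarith
      have h4 := Real.exp_le_exp.2 h3
      rw [mul_assoc]
      gcongr
    linarith
  · have h1 := hE _ A3
    have hs : 4 * (k / L) / L ≤ 32 * q ^ (-(1 / 4) : ℝ) := by
      have h2 : q ^ (3 / 2 - 3 * ε) ≤ 8 * L ^ 3 := by
        calc q ^ (3 / 2 - 3 * ε) = (q ^ (1 / 2 - ε)) ^ 3 := by
              rw [← Real.rpow_natCast, ← Real.rpow_mul hqp.le]
              congr 1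
              push_cast
              ring
          _ ≤ (2 * L) ^ 3 := by gcongr
          _ = 8 * L ^ 3 := by ring
      have e1 : 4 * (k / L) / L = 4 * q / L ^ 3 := by
        rw [hLk]
        field_simp
      rw [e1, div_le_iff₀ (by positivity)]
      have h3 : q ≤ q ^ (-(1 / 4) : ℝ) * q ^ (3 / 2 - 3 * ε) := by
        rw [← Real.rpow_add hqp]
        nth_rewrite 1 [← Real.rpow_one q]
        exact Real.rpow_le_rpow_of_exponent_le hq1 (by linarith)
      have h4 : 0 < q ^ (-(1 / 4) : ℝ) := by positivity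
      nlinarith
    have hq4 : 0 < q ^ (1 / 4 : ℝ) / 32 := by positivity
    have hexp : Real.exp (Real.log (q ^ (1 / 4 : ℝ) / 32)) = q ^ (1 / 4 : ℝ) / 32 := Real.exp_log hq4
    have h2 : (N * (k * L : ℝ)) * Real.exp ((Real.exp (Real.log (q ^ (1 / 4 : ℝ) / 32)) - 1) *
          (4 * (k / L) / L) - Real.log (q ^ (1 / 4 : ℝ) / 32) * 16) ≤ 3 * 32 ^ 16 * q ^ (-1 : ℝ) := by
      rw [hexp, hkL]
      have h3 : (q ^ (1 / 4 : ℝ) / 32 - 1) * (4 * (k / L) / L) ≤ 1 := by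
        calc (q ^ (1 / 4 : ℝ) / 32 - 1) * (4 * (k / L) / L) ≤
            (q ^ (1 / 4 : ℝ) / 32) * (4 * (k / L) / L) := by
              gcongr
              linarith
          _ ≤ (q ^ (1 / 4 : ℝ) / 32) * (32 * q ^ (-(1 / 4) : ℝ)) := by gcongr
          _ = q ^ (1 / 4 : ℝ) * q ^ (-(1 / 4) : ℝ) := by ring
          _ = 1 := by
              rw [← Real.rpow_add hqp]
              norm_num
      have h4 : Real.exp ((q ^ (1 / 4 : ℝ) / 32 - 1) * (4 * (k / L) / L) -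
          Real.log (q ^ (1 / 4 : ℝ) / 32) * 16) ≤ 3 * (32 ^ 16 * q ^ (-4 : ℝ)) := by
        rw [sub_eq_add_neg, Real.exp_add]
        have h5 : Real.exp ((q ^ (1 / 4 : ℝ) / 32 - 1) * (4 * (k / L) / L)) ≤ 3 := by
          calc _ ≤ Real.exp 1 := Real.exp_le_exp.2 h3
            _ ≤ 3 := by
                have := Real.exp_one_lt_d9
                linarith
        have h6 : Real.exp (-(Real.log (q ^ (1 / 4 : ℝ) / 32) * 16)) = 32 ^ 16 * q ^ (-4 : ℝ) := by
          rw [show -(Real.log (q ^ (1 / 4 : ℝ) / 32) * 16) =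
            ((16 : ℕ) : ℝ) * (-(Real.log (q ^ (1 / 4 : ℝ) / 32))) by push_cast; ring]
          rw [Real.exp_nat_mul, Real.exp_neg, hexp, inv_div, div_pow]
          rw [← Real.rpow_natCast (q ^ (1 / 4 : ℝ)) 16, ← Real.rpow_mul hqp.le, Real.rpow_neg hqp.le]
          norm_num
          rw [div_eq_mul_inv]
        rw [h6]
        gcongr
      calc N * q * Real.exp ((q ^ (1 / 4 : ℝ) / 32 - 1) * (4 * (k / L) / L) -
          Real.log (q ^ (1 / 4 : ℝ) / 32) * 16) ≤ q ^ 2 * q * (3 * (32 ^ 16 * q ^ (-4 : ℝ))) := by gcongr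
        _ = 3 * 32 ^ 16 * (q ^ (3 : ℝ) * q ^ (-4 : ℝ)) := by
            rw [show ((3 : ℝ)) = ((3 : ℕ) : ℝ) by norm_num, Real.rpow_natCast]
            push_cast
            ring
        _ = 3 * 32 ^ 16 * q ^ (-1 : ℝ) := by
            rw [← Real.rpow_add hqp]
            norm_num
    linarith
  · have := hE _ A4
    linarith
  · have e : Γ / (2 * L) / (2 * L) / (2 * L) / (2 * L) = Γ / (16 * L ^ 4) := by
      field_simp
      norm_num
    rw [e]
    calc q ^ (3 * ε) / 128 ≤ q ^ (4 * ε - ε / 4) / 128 := by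
          have := Real.rpow_le_rpow_of_exponent_le hq1 (show 3 * ε ≤ 4 * ε - ε / 4 by linarith)
          gcongr
      _ = Γ / (16 * q ^ (2 - 4 * ε)) := by
          have h4 : q ^ (2 - ε / 4) = q ^ (4 * ε - ε / 4) * q ^ (2 - 4 * ε) := by
            rw [← Real.rpow_add hqp]
            congr 1
            ring
          rw [hΓ, h4]
          have h5 : (0 : ℝ) < q ^ (2 - 4 * ε) := by positivity
          field_simp
          norm_num
      _ ≤ Γ / (16 * L ^ 4) := by gcongr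

end Pool.Agent.H563.T4
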