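import Pool.Agent.H563.T4.Num
import Pool.Graph.R_seed8.W65.CS.R2

set_option autoImplicit false

/-!
# Thin sets for the quadruples of one scale
-/

namespace Pool.Agent.H563.T4

open Finset Filter Topology Pool.Agent.W65.CS

lemma card_pair (T : Finset (ℕ × ℕ × ℕ × ℕ)) (φ : ℕ × ℕ × ℕ × ℕ → ℤ × ℤ) (j : ℕ) (D : ℝ)
    (hj : ((R2 j).card : ℝ) ≤ D) (hφ : ∀ q ∈ T, φ q ∈ R2 j)
    (hi : ∀ q ∈ T, ∀ q' ∈ T, φ q = φ q' → q = q') : (T.card : ℝ) ≤ D := by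
  refine le_trans ?_ hj
  have h := Finset.card_le_card_of_injOn φ hφ (fun q hq q' hq' e => hi q hq q' hq' e)
  exact_mod_cast h

lemma codeg (κ n : ℕ) (hκ : 1 ≤ κ) (T : Finset (ℕ × ℕ × ℕ × ℕ))
    (hT : ∀ q ∈ T, n = q.1 ^ 2 + q.2.1 ^ 2 + q.2.2.1 ^ 2 + (κ * q.2.2.2) ^ 2) (D : ℝ)
    (hD : ∀ j ≤ n, ((R2 j).card : ℝ) ≤ D) : Codeg T D := by
  have hc : ∀ w w' : ℕ, ((κ * w : ℕ) : ℤ) = ((κ * w' : ℕ) : ℤ) → w = w' := by
    intro w w' h
    exact Nat.eq_of_mul_eq_mul_left hκ (by exact_mod_cast h)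
  constructor
  · intro a b
    refine card_pair _ (fun q => ((q.2.2.1 : ℤ), ((κ * q.2.2.2 : ℕ) : ℤ))) (n - (a ^ 2 + b ^ 2)) D
      (hD _ (Nat.sub_le _ _)) ?_ ?_
    · rintro ⟨x, y, z, w⟩ hq
      rw [mem_filter] at hq
      obtain ⟨h1, h2, h3⟩ := hq
      have h := hT _ h1
      simp only at h h2 h3 ⊢
      subst h2 h3
      rw [mem_R2]
      have e : n - (x ^ 2 + y ^ 2) = z ^ 2 + (κ * w) ^ 2 := by omega
      rw [e]
      push_cast
      ring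
    · rintro ⟨x, y, z, w⟩ hq ⟨x', y', z', w'⟩ hq' e
      rw [mem_filter] at hq hq'
      obtain ⟨-, h2, h3⟩ := hq
      obtain ⟨-, h2', h3'⟩ := hq'
      simp only [Prod.mk.injEq] at h2 h3 h2' h3' e ⊢
      exact ⟨by omega, by omega, by exact_mod_cast e.1, hc _ _ e.2⟩
  · intro a b
    refine card_pair _ (fun q => ((q.2.1 : ℤ), ((κ * q.2.2.2 : ℕ) : ℤ))) (n - (a ^ 2 + b ^ 2)) D
      (hD _ (Nat.sub_le _ _)) ?_ ?_
    · rintro ⟨x, y, z, w⟩ hq
      rw [mem_filter] at hq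
      obtain ⟨h1, h2, h3⟩ := hq
      have h := hT _ h1
      simp only at h h2 h3 ⊢
      subst h2 h3
      rw [mem_R2]
      have e : n - (x ^ 2 + z ^ 2) = y ^ 2 + (κ * w) ^ 2 := by omega
      rw [e]
      push_cast
      ring
    · rintro ⟨x, y, z, w⟩ hq ⟨x', y', z', w'⟩ hq' e
      rw [mem_filter] at hq hq'
      obtain ⟨-, h2, h3⟩ := hq
      obtain ⟨-, h2', h3'⟩ := hq'
      simp only [Prod.mk.injEq] at h2 h3 h2' h3' e ⊢
      exact ⟨by omega, by exact_mod_cast e.1, by omega, hc _ _ e.2⟩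
  · intro a b
    refine card_pair _ (fun q => ((q.2.1 : ℤ), (q.2.2.1 : ℤ))) (n - (a ^ 2 + (κ * b) ^ 2)) D
      (hD _ (Nat.sub_le _ _)) ?_ ?_
    · rintro ⟨x, y, z, w⟩ hq
      rw [mem_filter] at hq
      obtain ⟨h1, h2, h3⟩ := hq
      have h := hT _ h1
      simp only at h h2 h3 ⊢
      subst h2 h3
      rw [mem_R2]
      have e : n - (x ^ 2 + (κ * w) ^ 2) = y ^ 2 + z ^ 2 := by omega
      rw [e]
      push_cast
      ring
    · rintro ⟨x, y, z, w⟩ hq ⟨x', y', z', w'⟩ hq' e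
      rw [mem_filter] at hq hq'
      obtain ⟨-, h2, h3⟩ := hq
      obtain ⟨-, h2', h3'⟩ := hq'
      simp only [Prod.mk.injEq] at h2 h3 h2' h3' e ⊢
      exact ⟨by omega, by exact_mod_cast e.1, by exact_mod_cast e.2, by omega⟩
  · intro a b
    refine card_pair _ (fun q => ((q.1 : ℤ), ((κ * q.2.2.2 : ℕ) : ℤ))) (n - (a ^ 2 + b ^ 2)) D
      (hD _ (Nat.sub_le _ _)) ?_ ?_
    · rintro ⟨x, y, z, w⟩ hq
      rw [mem_filter] at hq
      obtain ⟨h1, h2, h3⟩ := hq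
      have h := hT _ h1
      simp only at h h2 h3 ⊢
      subst h2 h3
      rw [mem_R2]
      have e : n - (y ^ 2 + z ^ 2) = x ^ 2 + (κ * w) ^ 2 := by omega
      rw [e]
      push_cast
      ring
    · rintro ⟨x, y, z, w⟩ hq ⟨x', y', z', w'⟩ hq' e
      rw [mem_filter] at hq hq'
      obtain ⟨-, h2, h3⟩ := hq
      obtain ⟨-, h2', h3'⟩ := hq'
      simp only [Prod.mk.injEq] at h2 h3 h2' h3' e ⊢
      exact ⟨by exact_mod_cast e.1, by omega, by omega, hc _ _ e.2⟩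
  · intro a b
    refine card_pair _ (fun q => ((q.1 : ℤ), (q.2.2.1 : ℤ))) (n - (a ^ 2 + (κ * b) ^ 2)) D
      (hD _ (Nat.sub_le _ _)) ?_ ?_
    · rintro ⟨x, y, z, w⟩ hq
      rw [mem_filter] at hq
      obtain ⟨h1, h2, h3⟩ := hq
      have h := hT _ h1
      simp only at h h2 h3 ⊢
      subst h2 h3
      rw [mem_R2]
      have e : n - (y ^ 2 + (κ * w) ^ 2) = x ^ 2 + z ^ 2 := by omega
      rw [e]
      push_cast
      ring
    · rintro ⟨x, y, z, w⟩ hq ⟨x', y', z', w'⟩ hq' e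
      rw [mem_filter] at hq hq'
      obtain ⟨-, h2, h3⟩ := hq
      obtain ⟨-, h2', h3'⟩ := hq'
      simp only [Prod.mk.injEq] at h2 h3 h2' h3' e ⊢
      exact ⟨by exact_mod_cast e.1, by omega, by exact_mod_cast e.2, by omega⟩
  · intro a b
    refine card_pair _ (fun q => ((q.1 : ℤ), (q.2.1 : ℤ))) (n - (a ^ 2 + (κ * b) ^ 2)) D
      (hD _ (Nat.sub_le _ _)) ?_ ?_
    · rintro ⟨x, y, z, w⟩ hq
      rw [mem_filter] at hq
      obtain ⟨h1, h2, h3⟩ := hq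
      have h := hT _ h1
      simp only at h h2 h3 ⊢
      subst h2 h3
      rw [mem_R2]
      have e : n - (z ^ 2 + (κ * w) ^ 2) = x ^ 2 + y ^ 2 := by omega
      rw [e]
      push_cast
      ring
    · rintro ⟨x, y, z, w⟩ hq ⟨x', y', z', w'⟩ hq' e
      rw [mem_filter] at hq hq'
      obtain ⟨-, h2, h3⟩ := hq
      obtain ⟨-, h2', h3'⟩ := hq'
      simp only [Prod.mk.injEq] at h2 h3 h2' h3' e ⊢
      exact ⟨by exact_mod_cast e.1, by exact_mod_cast e.2, by omega, by omega⟩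

lemma codeg_mono {T T' : Finset (ℕ × ℕ × ℕ × ℕ)} {D : ℝ} (h : Codeg T D) (hs : T' ⊆ T) : Codeg T' D := by
  have key : ∀ (p : ℕ × ℕ × ℕ × ℕ → Prop) [DecidablePred p], ((T.filter p).card : ℝ) ≤ D →
      ((T'.filter p).card : ℝ) ≤ D := by
    intro p _ hp
    refine le_trans ?_ hp
    exact_mod_cast card_le_card (filter_subset_filter _ hs)
  exact ⟨fun a b => key _ (h.h12 a b), fun a b => key _ (h.h13 a b), fun a b => key _ (h.h14 a b),
    fun a b => key _ (h.h23 a b), fun a b => key _ (h.h24 a b), fun a b => key _ (h.h34 a b)⟩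

/-- few quadruples have a small coordinate -/
lemma small_coord (T : Finset (ℕ × ℕ × ℕ × ℕ)) (M L : ℕ) (D : ℝ) (hD : 0 ≤ D) (h : Codeg T D)
    (hlt : ∀ q ∈ T, q.1 < M ∧ q.2.1 < M ∧ q.2.2.1 < M ∧ q.2.2.2 < M) :
    (T.card : ℝ) ≤ ((T.filter (fun q => L ≤ q.1 ∧ L ≤ q.2.1 ∧ L ≤ q.2.2.1 ∧ L ≤ q.2.2.2)).card : ℝ) +
      4 * (L * (M * D)) := by
  classical
  have c1 : ((T.filter (fun q => q.1 < L)).card : ℝ) ≤ L * (M * D) := by
    have := fib_le T (fun q => q.1 < L) (fun q => q.1) (range L) (M * D)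
      (fun q _ h => mem_range.2 h) (fun a _ => by
        have h1 := fib_le T (fun q => q.1 = a) (fun q => q.2.1) (range M) D
          (fun q hq _ => mem_range.2 (hlt q hq).2.1) (fun b _ => h.h12 a b)
        rw [card_range] at h1
        exact sub_le _ _ _ _ (fun q _ h => h.2) h1)
    rwa [card_range] at this
  have c2 : ((T.filter (fun q => q.2.1 < L)).card : ℝ) ≤ L * (M * D) := by
    have := fib_le T (fun q => q.2.1 < L) (fun q => q.2.1) (range L) (M * D)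
      (fun q _ h => mem_range.2 h) (fun a _ => by
        have h1 := fib_le T (fun q => q.2.1 = a) (fun q => q.1) (range M) D
          (fun q hq _ => mem_range.2 (hlt q hq).1)
          (fun b _ => sub_le _ _ _ _ (fun q _ h => ⟨h.2, h.1⟩) (h.h12 b a))
        rw [card_range] at h1
        exact sub_le _ _ _ _ (fun q _ h => h.2) h1)
    rwa [card_range] at this
  have c3 : ((T.filter (fun q => q.2.2.1 < L)).card : ℝ) ≤ L * (M * D) := by
    have := fib_le T (fun q => q.2.2.1 < L) (fun q => q.2.2.1) (range L) (M * D)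
      (fun q _ h => mem_range.2 h) (fun a _ => by
        have h1 := fib_le T (fun q => q.2.2.1 = a) (fun q => q.1) (range M) D
          (fun q hq _ => mem_range.2 (hlt q hq).1)
          (fun b _ => sub_le _ _ _ _ (fun q _ h => ⟨h.2, h.1⟩) (h.h13 b a))
        rw [card_range] at h1
        exact sub_le _ _ _ _ (fun q _ h => h.2) h1)
    rwa [card_range] at this
  have c4 : ((T.filter (fun q => q.2.2.2 < L)).card : ℝ) ≤ L * (M * D) := by
    have := fib_le T (fun q => q.2.2.2 < L) (fun q => q.2.2.2) (range L) (M * D)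
      (fun q _ h => mem_range.2 h) (fun a _ => by
        have h1 := fib_le T (fun q => q.2.2.2 = a) (fun q => q.1) (range M) D
          (fun q hq _ => mem_range.2 (hlt q hq).1)
          (fun b _ => sub_le _ _ _ _ (fun q _ h => ⟨h.2, h.1⟩) (h.h14 b a))
        rw [card_range] at h1
        exact sub_le _ _ _ _ (fun q _ h => h.2) h1)
    rwa [card_range] at this
  have hsub : T ⊆ (T.filter (fun q => L ≤ q.1 ∧ L ≤ q.2.1 ∧ L ≤ q.2.2.1 ∧ L ≤ q.2.2.2)) ∪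
      (((T.filter (fun q => q.1 < L)) ∪ (T.filter (fun q => q.2.1 < L))) ∪
        ((T.filter (fun q => q.2.2.1 < L)) ∪ (T.filter (fun q => q.2.2.2 < L)))) := by
    intro q hq
    simp only [mem_union, mem_filter]
    by_cases g1 : q.1 < L
    · exact Or.inr (Or.inl (Or.inl ⟨hq, g1⟩))
    by_cases g2 : q.2.1 < L
    · exact Or.inr (Or.inl (Or.inr ⟨hq, g2⟩))
    by_cases g3 : q.2.2.1 < L
    · exact Or.inr (Or.inr (Or.inl ⟨hq, g3⟩))
    by_cases g4 : q.2.2.2 < L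
    · exact Or.inr (Or.inr (Or.inr ⟨hq, g4⟩))
    exact Or.inl ⟨hq, by omega, by omega, by omega, by omega⟩
  have h1 := card_le_card hsub
  have h2 := card_union_le (T.filter (fun q => L ≤ q.1 ∧ L ≤ q.2.1 ∧ L ≤ q.2.2.1 ∧ L ≤ q.2.2.2))
    (((T.filter (fun q => q.1 < L)) ∪ (T.filter (fun q => q.2.1 < L))) ∪
        ((T.filter (fun q => q.2.2.1 < L)) ∪ (T.filter (fun q => q.2.2.2 < L))))
  have h3 := card_union_le ((T.filter (fun q => q.1 < L)) ∪ (T.filter (fun q => q.2.1 < L)))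
    ((T.filter (fun q => q.2.2.1 < L)) ∪ (T.filter (fun q => q.2.2.2 < L)))
  have h4 := card_union_le (T.filter (fun q => q.1 < L)) (T.filter (fun q => q.2.1 < L))
  have h5 := card_union_le (T.filter (fun q => q.2.2.1 < L)) (T.filter (fun q => q.2.2.2 < L))
  have h6 : T.card ≤ (T.filter (fun q => L ≤ q.1 ∧ L ≤ q.2.1 ∧ L ≤ q.2.2.1 ∧ L ≤ q.2.2.2)).card +
      (((T.filter (fun q => q.1 < L)).card + (T.filter (fun q => q.2.1 < L)).card) +
        ((T.filter (fun q => q.2.2.1 < L)).card + (T.filter (fun q => q.2.2.2 < L)).card)) := by omega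
  have h7 : (T.card : ℝ) ≤ ((T.filter (fun q => L ≤ q.1 ∧ L ≤ q.2.1 ∧ L ≤ q.2.2.1 ∧ L ≤ q.2.2.2)).card : ℝ) +
      ((((T.filter (fun q => q.1 < L)).card : ℝ) + ((T.filter (fun q => q.2.1 < L)).card : ℝ)) +
        (((T.filter (fun q => q.2.2.1 < L)).card : ℝ) + ((T.filter (fun q => q.2.2.2 < L)).card : ℝ))) := by
    exact_mod_cast h6
  linarith

theorem scale (κ : ℕ) (hκ : 1 ≤ κ) (ε : ℝ) (hε : 0 < ε) (hε2 : ε ≤ 1 / 12) :
    ∃ m0 : ℕ, 1 ≤ m0 ∧ ∀ m : ℕ, m0 ≤ m → ∀ (N : Finset ℕ) (S : ℕ → Finset (ℕ × ℕ × ℕ × ℕ)),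
      (∀ n ∈ N, 4 ^ (m - 1) ≤ n ∧ n < 4 ^ m) →
      (∀ n ∈ N, ∀ q ∈ S n, n = q.1 ^ 2 + q.2.1 ^ 2 + q.2.2.1 ^ 2 + (κ * q.2.2.2) ^ 2) →
      (∀ n ∈ N, (n : ℝ) ^ (1 - ε / 8) ≤ ((S n).card : ℝ)) →
      ∃ r1 r2 r3 r4 : ℕ → ℕ, (∀ t, r1 t < LL ε m) ∧ (∀ t, r2 t < LL ε m) ∧ (∀ t, r3 t < LL ε m) ∧
        (∀ t, r4 t < LL ε m) ∧ ∀ n ∈ N, (n : ℝ) ^ ε ≤ (((S n).filter (fun q =>
          (LL ε m ≤ q.1 ∧ LL ε m ≤ q.2.1 ∧ LL ε m ≤ q.2.2.1 ∧ LL ε m ≤ q.2.2.2) ∧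
          ((q.1 ∈ blk (kk ε m) (LL ε m) r1 ∧ q.2.1 ∈ blk (kk ε m) (LL ε m) r2 ∧
            q.2.2.1 ∈ blk (kk ε m) (LL ε m) r3) ∧ q.2.2.2 ∈ blk (kk ε m) (LL ε m) r4))).card : ℝ) := by
  obtain ⟨C, hC, hR⟩ := R2_bound (ε / 8) (by positivity)
  obtain ⟨q0, hq0, hnum⟩ := num ε C hε hε2 hC
  have E1 : ∀ᶠ q : ℝ in atTop, 32 * C ≤ q ^ (1 / 2 + ε / 2) :=
    (tendsto_rpow_atTop (by positivity : (0 : ℝ) < 1 / 2 + ε / 2)).eventually_ge_atTop _
  have E2 : ∀ᶠ q : ℝ in atTop, 128 ≤ q ^ ε := (tendsto_rpow_atTop hε).eventually_ge_atTop _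
  have hpow : Tendsto (fun m : ℕ => (2 : ℝ) ^ m) atTop atTop :=
    tendsto_pow_atTop_atTop_of_one_lt (by norm_num)
  obtain ⟨m1, hm1⟩ := eventually_atTop.1 (hpow.eventually (E1.and (E2.and (eventually_ge_atTop q0))))
  refine ⟨max m1 1, le_max_right _ _, ?_⟩
  intro m hm N S hN hS hSc
  obtain ⟨F1, F2, F3⟩ := hm1 m (le_trans (le_max_left _ _) hm)
  have hm1' : 1 ≤ m := le_trans (le_max_right _ _) hm
  set q : ℝ := (2 : ℝ) ^ m with hq
  have hqp : 0 < q := by positivity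
  have hq1 : 1 ≤ q := by linarith
  set L := LL ε m with hLd
  set k := kk ε m with hkd
  have hL0 : 0 < L := LL_pos ε m
  have hk0 : 0 < k := kk_pos ε m
  have hkL : k * L = 2 ^ m := kk_mul ε hε hε2 m
  have hLr : (0 : ℝ) < L := by exact_mod_cast hL0
  have hkr : (0 : ℝ) < k := by exact_mod_cast hk0
  have hkLr : (k : ℝ) * L = q := by
    have : ((k * L : ℕ) : ℝ) = ((2 ^ m : ℕ) : ℝ) := by rw [hkL]
    push_cast at this
    exact this
  have hLu : (L : ℝ) ≤ q ^ (1 / 2 - ε) := L_up ε hε2 m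
  have hLl : q ^ (1 / 2 - ε) ≤ 2 * (L : ℝ) := L_low ε m
  have h4q : ((4 ^ m : ℕ) : ℝ) = q ^ 2 := by
    push_cast
    rw [hq, ← pow_mul, mul_comm m 2, pow_mul]
    norm_num
  have hNc : (N.card : ℝ) ≤ q ^ 2 := by
    have h1 : N.card ≤ 4 ^ m := by
      calc N.card ≤ (range (4 ^ m)).card := card_le_card (fun n hn => mem_range.2 (hN n hn).2)
        _ = 4 ^ m := card_range _
    calc (N.card : ℝ) ≤ ((4 ^ m : ℕ) : ℝ) := by exact_mod_cast h1
      _ = q ^ 2 := h4q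
  set D : ℝ := C * q ^ (ε / 4) with hD
  have hq4 : 1 ≤ q ^ (ε / 4) := Real.one_le_rpow hq1 (by positivity)
  have hD1 : 1 ≤ D := by nlinarith
  have hn1 : ∀ n ∈ N, 1 ≤ n := fun n hn => le_trans (Nat.one_le_pow _ _ (by norm_num)) (hN n hn).1
  have hnq : ∀ n ∈ N, (n : ℝ) ≤ q ^ 2 := by
    intro n hn
    rw [← h4q]
    exact_mod_cast (hN n hn).2.le
  have hcS : ∀ n ∈ N, Codeg (S n) D := by
    intro n hn
    apply codeg κ n hκ (S n) (hS n hn) D
    intro j hj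
    refine (hR j n hj (hn1 n hn)).trans ?_
    have h1 : (n : ℝ) ^ (ε / 8) ≤ (q ^ 2) ^ (ε / 8) :=
      Real.rpow_le_rpow (by positivity) (hnq n hn) (by positivity)
    have h2 : (q ^ 2) ^ (ε / 8) = q ^ (ε / 4) := by
      rw [← Real.rpow_natCast q 2, ← Real.rpow_mul hqp.le]
      congr 1
      push_cast
      ring
    rw [h2] at h1
    rw [hD]
    gcongr
  have hlt : ∀ n ∈ N, ∀ p ∈ S n, p.1 < k * L ∧ p.2.1 < k * L ∧ p.2.2.1 < k * L ∧ p.2.2.2 < k * L := by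
    intro n hn p hp
    rw [hkL]
    have h1 := hS n hn p hp
    have h2 := (hN n hn).2
    have h3 : (4 : ℕ) ^ m = (2 ^ m) ^ 2 := by
      rw [← pow_mul, mul_comm m 2, pow_mul]
      norm_num
    rw [h3] at h2
    have h4 : ∀ v : ℕ, v ^ 2 ≤ n → v < 2 ^ m := by
      intro v hv
      exact lt_of_pow_lt_pow_left₀ 2 (by positivity) (lt_of_le_of_lt hv h2)
    have h5 : p.2.2.2 ^ 2 ≤ (κ * p.2.2.2) ^ 2 :=
      Nat.pow_le_pow_left (Nat.le_mul_of_pos_left _ hκ) 2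
    exact ⟨h4 _ (by omega), h4 _ (by omega), h4 _ (by omega), h4 _ (by omega)⟩
  set G : ℕ → Finset (ℕ × ℕ × ℕ × ℕ) := fun n =>
    (S n).filter (fun q => L ≤ q.1 ∧ L ≤ q.2.1 ∧ L ≤ q.2.2.1 ∧ L ≤ q.2.2.2) with hG
  obtain ⟨hlam, N1, N2, N3, N4, N5⟩ := hnum q L k N.card (q ^ (2 - ε / 4) / 8) D F3 hLr hkr hkLr hLu
    hLl (by positivity) hNc rfl rfl
  have hGc : ∀ n ∈ N, q ^ (2 - ε / 4) / 8 ≤ ((G n).card : ℝ) := by
    intro n hn
    have h1 := small_coord (S n) (k * L) L D (by linarith) (hcS n hn) (hlt n hn)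
    have h2 := hSc n hn
    have h3 : q ^ (2 - ε / 4) / 4 ≤ (n : ℝ) ^ (1 - ε / 8) := by
      have h4 : q ^ 2 / 4 ≤ (n : ℝ) := by
        have h5 : ((4 ^ (m - 1) : ℕ) : ℝ) ≤ (n : ℝ) := by exact_mod_cast (hN n hn).1
        have h6 : ((4 ^ m : ℕ) : ℝ) = 4 * ((4 ^ (m - 1) : ℕ) : ℝ) := by
          have : m = (m - 1) + 1 := by omega
          nth_rewrite 1 [this]
          push_cast
          ring
        rw [← h4q, h6]
        linarith
      have h5 : (q ^ 2 / 4) ^ (1 - ε / 8) ≤ (n : ℝ) ^ (1 - ε / 8) :=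
        Real.rpow_le_rpow (by positivity) h4 (by linarith)
      have h6 : q ^ (2 - ε / 4) / 4 ≤ (q ^ 2 / 4) ^ (1 - ε / 8) := by
        rw [Real.div_rpow (by positivity) (by norm_num)]
        have h7 : (q ^ 2) ^ (1 - ε / 8) = q ^ (2 - ε / 4) := by
          rw [← Real.rpow_natCast q 2, ← Real.rpow_mul hqp.le]
          congr 1
          push_cast
          ring
        rw [h7]
        have h8 : (4 : ℝ) ^ (1 - ε / 8) ≤ 4 := by
          calc (4 : ℝ) ^ (1 - ε / 8) ≤ 4 ^ (1 : ℝ) :=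
                Real.rpow_le_rpow_of_exponent_le (by norm_num) (by linarith)
            _ = 4 := by norm_num
        gcongr
      exact h6.trans h5
    have h9 : 4 * ((L : ℝ) * (((k * L : ℕ) : ℝ) * D)) ≤ q ^ (2 - ε / 4) / 8 := by
      push_cast
      rw [hkLr, hD]
      have h10 : 4 * ((L : ℝ) * (q * (C * q ^ (ε / 4)))) ≤ 4 * C * q ^ (3 / 2 - 3 / 4 * ε) := by
        calc 4 * ((L : ℝ) * (q * (C * q ^ (ε / 4)))) ≤ 4 * (q ^ (1 / 2 - ε) * (q * (C * q ^ (ε / 4)))) := by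
              gcongr
          _ = 4 * C * (q ^ (1 / 2 - ε) * q ^ (1 : ℝ) * q ^ (ε / 4)) := by
              rw [Real.rpow_one]
              ring
          _ = 4 * C * q ^ (3 / 2 - 3 / 4 * ε) := by
              rw [← Real.rpow_add hqp, ← Real.rpow_add hqp]
              congr 2
              ring
      have h11 : q ^ (2 - ε / 4) = q ^ (1 / 2 + ε / 2) * q ^ (3 / 2 - 3 / 4 * ε) := by
        rw [← Real.rpow_add hqp]
        congr 1
        ring
      have h12 : (0 : ℝ) < q ^ (3 / 2 - 3 / 4 * ε) := by positivity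
      rw [h11]
      nlinarith
    have h13 : ((G n).card : ℝ) = (((S n).filter (fun q => L ≤ q.1 ∧ L ≤ q.2.1 ∧ L ≤ q.2.2.1 ∧
      L ≤ q.2.2.2)).card : ℝ) := rfl
    rw [h13]
    linarith
  obtain ⟨r1, r2, r3, r4, hr1, hr2, hr3, hr4, hfin⟩ := four N G k L hL0 hk0 D hD1
    (fun n hn => codeg_mono (hcS n hn) (filter_subset _ _))
    (fun n hn p hp => hlt n hn p (mem_filter.1 hp).1) (q ^ (2 - ε / 4) / 8) hGc
    (Real.log (q ^ (1 / 4 : ℝ) / 32)) 16 hlam (by norm_num) N1 N2 N3 N4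
  refine ⟨r1, r2, r3, r4, hr1, hr2, hr3, hr4, ?_⟩
  intro n hn
  have h1 := hfin n hn
  rw [hG] at h1
  simp only [filter_filter] at h1
  refine le_trans ?_ h1
  refine le_trans ?_ N5
  have h2 : (n : ℝ) ^ ε ≤ (q ^ 2) ^ ε := Real.rpow_le_rpow (by positivity) (hnq n hn) hε.le
  have h3 : (q ^ 2) ^ ε = q ^ (2 * ε) := by
    rw [← Real.rpow_natCast q 2, ← Real.rpow_mul hqp.le]
    congr 1
  have h4 : q ^ (3 * ε) = q ^ (2 * ε) * q ^ ε := by
    rw [← Real.rpow_add hqp]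
    congr 1
    ring
  rw [h3] at h2
  rw [h4, le_div_iff₀ (by norm_num)]
  have h5 : 0 < q ^ (2 * ε) := by positivity
  nlinarith

end Pool.Agent.H563.T4
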